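import Pool.Agent.U456.IZ.Joint
import Pool.Agent.R352.Q.Three

/-!
# The triple integrals
-/

set_option autoImplicit false

open MeasureTheory Set

namespace Pool.Agent.U456.IZ

open Pool.Agent.R352.E Pool.Agent.R352.Q
open Pool.Agent.R356 (JointR)

/-- the points of the octant with a coordinate at least `x` -/
def rest3 (x : ℝ) : Set (Fin 3 → ℝ) := {t | (∀ j, 0 < t j) ∧ ∃ j, x ≤ t j}

/-- the triple integral -/
noncomputable def R3 (x : ℝ) : ℝ := 1 / 12 * ∫ t in rest3 x,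
  Real.log (t 0 * t 1 / t 2 ^ 2) ^ 3 * Real.exp (-(t 0 + t 1 + t 2))

lemma rest3_eq (x : ℝ) : rest3 x = cube 3 (Ioi 0) \ cube 3 (Ioo 0 x) := by
  ext t
  simp only [rest3, cube, mem_sdiff, mem_univ_pi, mem_Ioi, mem_Ioo]
  constructor
  · rintro ⟨h1, j, h2⟩
    exact ⟨h1, fun h => absurd (h j).2 (not_lt.2 h2)⟩
  · rintro ⟨h1, h2⟩
    push Not at h2
    obtain ⟨j, hj⟩ := h2
    exact ⟨h1, j, hj (h1 j)⟩

lemma R3_pos {x : ℝ} (hx : 0 < x) : R3 x = Rk 3 x := by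
  rw [R3, rest3_eq, three_rest hx]
  ring

lemma rest3_zero : rest3 0 = cube 3 (Ioi 0) := by
  ext t
  simp only [rest3, cube, mem_univ_pi, mem_Ioi]
  exact ⟨fun h => h.1, fun h => ⟨h, 0, (h 0).le⟩⟩

lemma R3_zero : R3 0 = zt 3 := by
  have h1 : ((∫ t in cube 3 (Ioi 0), Real.log (t 0 * t 1 / t 2 ^ 2) ^ 3 *
      Real.exp (-(t 0 + t 1 + t 2)) : ℝ) : ℂ) = ((12 * zt 3 : ℝ) : ℂ) := by
    rw [show ((∫ t in cube 3 (Ioi 0), Real.log (t 0 * t 1 / t 2 ^ 2) ^ 3 *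
      Real.exp (-(t 0 + t 1 + t 2)) : ℝ) : ℂ) = ∫ t in cube 3 (Ioi 0),
        ((Real.log (t 0 * t 1 / t 2 ^ 2) ^ 3 * Real.exp (-(t 0 + t 1 + t 2)) : ℝ) : ℂ)
        from integral_ofReal.symm]
    have h2 : ∫ t in cube 3 (Ioi 0), ((Real.log (t 0 * t 1 / t 2 ^ 2) ^ 3 *
        Real.exp (-(t 0 + t 1 + t 2)) : ℝ) : ℂ) =
        ∫ t in cube 3 (Ioi 0), FI 3 (![1, 1, -2] : Fin 3 → ℂ) t := by
      refine setIntegral_congr_fun (meas_cube 3 measurableSet_Ioi) fun t ht => ?_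
      exact (FI_three t fun j => ht j (mem_univ j)).symm
    rw [h2, cube, cube_three subset_rfl deriv_Fs_Ioi, const_Fs_Ioi]
    have h3 : PowerSeries.coeff 2 PC = (-1) ^ 3 * zt 3 := coeff_PC (k := 3) (by norm_num)
    rw [h3]
    congr 1
    norm_num
  have h2 : ∫ t in cube 3 (Ioi 0), Real.log (t 0 * t 1 / t 2 ^ 2) ^ 3 *
      Real.exp (-(t 0 + t 1 + t 2)) = 12 * zt 3 := by exact_mod_cast h1
  rw [R3, rest3_zero, h2]
  ring

/-- the joint measures for the numbers `e^s R3(x)` -/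
theorem joint_R3 {n : ℕ} (x s : Fin n → ℚ) (hx : ∀ i, 0 ≤ x i)
    (h : ∀ i j, i ≠ j → x i = x j → s i ≠ s j ∧ R3 (x i) ≠ 0) (i j : Fin n) (hij : i ≠ j) :
    JointR (Real.exp (s i) * R3 (x i)) (Real.exp (s j) * R3 (x j)) := by
  classical
  obtain ⟨b, hb⟩ : ∃ b : Fin n → Option ℚ × ℚ, ∀ i, b i = (if x i = 0 then none else some (x i), s i) :=
    ⟨_, fun i => rfl⟩
  have hinj : Function.Injective b := by
    intro i j hbij
    by_contra hij
    rw [hb, hb, Prod.mk.injEq] at hbij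
    obtain ⟨h1, h2⟩ := hbij
    have h3 : x i = x j := by
      split_ifs at h1 with ha hc hc
      · rw [ha, hc]
      · exact Option.some.inj h1
    exact (h i j hij h3).1 h2
  have hsome : ∀ i y, (b i).1 = some y → y = x i ∧ x i ≠ 0 := by
    intro i y hy
    rw [hb] at hy
    simp only at hy
    split_ifs at hy with ha
    exact ⟨(Option.some.inj hy).symm, ha⟩
  have hval : ∀ i, fz 3 (b i) = Real.exp (s i) * R3 (x i) := by
    intro i
    rw [hb, fz]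
    simp only
    split_ifs with ha
    · rw [ha, Rat.cast_zero, R3_zero]
      rfl
    · have h1 : 0 < x i := lt_of_le_of_ne (hx i) (Ne.symm ha)
      have h2 : (0 : ℝ) < x i := by exact_mod_cast h1
      rw [R3_pos h2]
      rfl
  rw [← hval, ← hval]
  refine joint_fz 3 (by norm_num) b hinj ?_ ?_ i j hij
  · intro i y hy
    obtain ⟨h1, h2⟩ := hsome i y hy
    rw [h1]
    exact lt_of_le_of_ne (hx i) (Ne.symm h2)
  · intro i i' y hii hy hy'
    obtain ⟨h1, h2⟩ := hsome i y hy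
    obtain ⟨h3, -⟩ := hsome i' y hy'
    have h4 := (h i i' hii (by rw [← h1, ← h3])).2
    have h5 : (0 : ℝ) < x i := by exact_mod_cast lt_of_le_of_ne (hx i) (Ne.symm h2)
    rw [h1, ← R3_pos h5]
    exact h4

end Pool.Agent.U456.IZ
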