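import Pool.Agent.U456.IZ.Joint
import Pool.Agent.Q163.LE.Tr

/-!
# Algebraic independence over simultaneously Liouville fields
-/

set_option autoImplicit false

namespace Pool.Agent.U456.IZ

open Pool.Agent.R352.E Pool.Agent.R352.Q Pool.Agent.N743.SS Pool.Agent.Q163.LE

/-- a measure of algebraic independence gives algebraic independence over every simultaneously
Liouville field -/
theorem ai_of_measM {F : Subfield ℝ} (hF : SimLiouville F) {ι : Type} (x : ι → ℝ)
    (hx : MeasM x) : AlgebraicIndependent F x := by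
  classical
  rw [algebraicIndependent_iff]
  intro p hp
  obtain ⟨κ, c, hκ, hc, h⟩ := hx p.totalDegree
  obtain ⟨e⟩ : Nonempty (Fin p.support.card ≃ p.support) := ⟨p.support.equivFin.symm⟩
  have hlin : LinearIndependent F
      (fun i : Fin p.support.card => (e i).1.prod fun j k => x j ^ k) := by
    refine lin_indep hF _ ⌈κ⌉₊ c hc fun z H hz hH hzH => ?_
    obtain ⟨Q, hQ⟩ : ∃ Q : MvPolynomial ι ℤ, Q = ∑ i, MvPolynomial.monomial (e i).1 (z i) :=
      ⟨_, rfl⟩
    have hcoef : ∀ s, Q.coeff s = if hs : s ∈ p.support then z (e.symm ⟨s, hs⟩) else 0 := by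
      intro s
      rw [hQ, MvPolynomial.coeff_sum]
      split_ifs with hs
      · rw [Finset.sum_eq_single (e.symm ⟨s, hs⟩)]
        · rw [Equiv.apply_symm_apply, MvPolynomial.coeff_monomial, if_pos rfl]
        · intro i _ hi
          rw [MvPolynomial.coeff_monomial, if_neg]
          intro h0
          apply hi
          rw [Equiv.eq_symm_apply]
          exact Subtype.ext h0
        · intro h0
          exact absurd (Finset.mem_univ _) h0
      · refine Finset.sum_eq_zero fun i _ => ?_
        rw [MvPolynomial.coeff_monomial, if_neg]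
        intro h0
        exact hs (h0 ▸ (e i).2)
    have hQ0 : Q ≠ 0 := by
      intro h0
      apply hz
      funext i
      have h1 := hcoef (e i).1
      rw [h0, MvPolynomial.coeff_zero, dif_pos (e i).2] at h1
      simpa using h1.symm
    have hdeg : Q.totalDegree ≤ p.totalDegree := by
      rw [hQ]
      refine MvPolynomial.totalDegree_finsetSum_le fun i _ => ?_
      refine (MvPolynomial.totalDegree_monomial_le _ _).trans ?_
      exact MvPolynomial.le_totalDegree (e i).2
    have hmain := h Q hQ0 hdeg H (fun s => by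
      rw [hcoef]
      split_ifs with hs
      · exact hzH _
      · rw [Int.cast_zero, abs_zero]; linarith)
    have e1 : MvPolynomial.aeval x Q = ∑ i, (z i : ℝ) * (e i).1.prod fun j k => x j ^ k := by
      rw [hQ, map_sum]
      refine Finset.sum_congr rfl fun i _ => ?_
      rw [MvPolynomial.aeval_monomial]
      simp
    rw [e1] at hmain
    refine le_trans ?_ hmain
    rw [div_eq_mul_inv, ← Real.rpow_natCast, ← Real.rpow_neg (by linarith)]
    refine mul_le_mul_of_nonneg_left ?_ hc.le
    exact Real.rpow_le_rpow_of_exponent_le hH (by linarith [Nat.le_ceil κ])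
  rw [Fintype.linearIndependent_iff] at hlin
  have hsum : ∑ i, p.coeff (e i).1 • ((e i).1.prod fun j k => x j ^ k) = 0 := by
    rw [← hp]
    conv_rhs => rw [MvPolynomial.as_sum p, map_sum, ← Finset.sum_coe_sort p.support]
    rw [← Equiv.sum_comp e]
    refine Finset.sum_congr rfl fun i _ => ?_
    rw [MvPolynomial.aeval_monomial, Algebra.smul_def]
  have hall := hlin (fun i => p.coeff (e i).1) hsum
  ext s
  by_cases hs : s ∈ p.support
  · have h1 := hall (e.symm ⟨s, hs⟩)
    simp only [Equiv.apply_symm_apply] at h1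
    rw [h1, MvPolynomial.coeff_zero]
  · rw [MvPolynomial.notMem_support_iff.1 hs, MvPolynomial.coeff_zero]

lemma exists_seq {K : Type} [Field K] [CharZero K] (c a₁ : K) (hc : c ≠ 0) (τ : ℕ → K) (J : ℕ) :
    ∃ a : ℕ → K, a 0 = c ∧ a 1 = a₁ ∧ ∀ j, 1 ≤ j → j ≤ J → NR a j = τ j := by
  induction J with
  | zero =>
    refine ⟨fun i => if i = 0 then c else a₁, by simp, by simp, fun j h1 h2 => by omega⟩
  | succ J ih =>
    obtain ⟨a, h0, h1, h⟩ := ih
    obtain ⟨v, hv⟩ : ∃ v, v = a (J + 2) + (τ (J + 1) - NR a (J + 1)) / ((((J + 1 : ℕ) : K) + 1) *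
      c ^ (J + 1)) := ⟨_, rfl⟩
    have hu : ∀ i ≤ J + 1, Function.update a (J + 2) v i = a i := fun i hi =>
      Function.update_of_ne (by omega) _ _
    refine ⟨Function.update a (J + 2) v, ?_, ?_, fun j hj1 hj2 => ?_⟩
    · rw [hu 0 (by omega), h0]
    · rw [hu 1 (by omega), h1]
    · by_cases hj : j ≤ J
      · rw [← h j hj1 hj]
        exact NR_congr j fun i hi => hu i (by omega)
      · have hjJ : j = J + 1 := by omega
        subst hjJ
        have h2 := NR_step (a := Function.update a (J + 2) v) (b := a) (J + 1) hu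
        have h3 : Function.update a (J + 2) v (J + 1 + 1) = v := Function.update_self _ _ _
        have h4 : Function.update a (J + 2) v 0 = c := by rw [hu 0 (by omega), h0]
        rw [h3, h4, hv] at h2
        have h5 : (((J + 1 : ℕ) : K) + 1) ≠ 0 := by
          have : (((J + 1 : ℕ) : K) + 1) = ((J + 2 : ℕ) : K) := by push_cast; ring
          rw [this]
          exact_mod_cast (by omega : J + 2 ≠ 0)
        have h6 : c ^ (J + 1) ≠ 0 := pow_ne_zero _ hc
        have h7 : NR (Function.update a (J + 2) v) (J + 1) - NR a (J + 1) =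
            τ (J + 1) - NR a (J + 1) := by
          rw [hv, h2]
          field_simp
          ring
        linear_combination h7

section

variable {n : ℕ} (J : ℕ) (mm : Fin n → ℕ)

/-- the polynomials -/
noncomputable def TT : Option (Fin J × Fin n) → MvPolynomial (Option (Fin J × Fin n)) ℤ :=
  fun o => o.elim (MvPolynomial.X none) (fun p => if (p.1 : ℕ) = 0 then MvPolynomial.X (some p) else
    (-1) ^ ((p.1 : ℕ) + 1) * NR (sq J mm p.2) p.1)

/-- the values -/
noncomputable def WW (q : ℕ) : Option (Fin J × Fin n) → ℝ :=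
  fun o => o.elim (Real.exp (-1 / q)) (fun p => W p.1 ((mm p.2 : ℝ) / q))

lemma aeval_TT (q : ℕ) (hq : 1 ≤ q) (hm : ∀ i, 1 ≤ mm i) (o : Option (Fin J × Fin n)) :
    MvPolynomial.aeval (pt J mm q) (TT J mm o) = WW J mm q o := by
  rcases o with _ | ⟨l, i⟩
  · simp [TT, WW, pt]
  · have hx : (0 : ℝ) < (mm i : ℝ) / q := by
      have h1 : (0 : ℝ) < mm i := by exact_mod_cast hm i
      have h2 : (0 : ℝ) < q := by exact_mod_cast hq
      positivity
    simp only [TT, WW, Option.elim, W]
    split_ifs with h0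
    · rw [MvPolynomial.aeval_X, pt]
      simp [h0]
    · have h1 := NR_series (deriv_As hx) (l : ℕ)
      rw [const_As] at h1
      rw [Zk, Nat.add_sub_cancel, h1, map_mul]
      congr 1
      · simp
      · have h2 := NR_map (MvPolynomial.aeval (pt J mm q) :
          MvPolynomial (Option (Fin J × Fin n)) ℤ →ₐ[ℤ] ℝ).toRingHom (sq J mm i) l
        refine h2.trans ?_
        refine NR_congr _ fun j hj => ?_
        have := l.2
        exact aeval_sq J mm q i j (by omega)

/-- the polynomials take arbitrary values, with few exceptions -/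
lemma TT_surj {K : Type} [Field K] [CharZero K] (τ : Option (Fin J × Fin n) → K)
    (hτ : ∀ i, 1 - τ none ^ mm i ≠ 0) : ∃ ψ : Option (Fin J × Fin n) → K,
      ∀ o, MvPolynomial.aeval ψ (TT J mm o) = τ o := by
  have hex : ∀ i : Fin n, ∃ a : ℕ → K, a 0 = 1 - τ none ^ mm i ∧
      (∀ h : 0 < J, a 1 = -τ (some (⟨0, h⟩, i))) ∧
      ∀ j, 1 ≤ j → ∀ h : j < J, NR a j = (-1) ^ (j + 1) * τ (some (⟨j, h⟩, i)) := by
    intro i
    obtain ⟨a, h0, h1, h⟩ := exists_seq (1 - τ none ^ mm i)
      (if h : 0 < J then -τ (some (⟨0, h⟩, i)) else 0) (hτ i)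
      (fun j => if h : j < J then (-1) ^ (j + 1) * τ (some (⟨j, h⟩, i)) else 0) J
    refine ⟨a, h0, fun hJ => by rw [h1, dif_pos hJ], fun j hj1 hj => ?_⟩
    rw [h j hj1 hj.le, dif_pos hj]
  choose a ha0 ha1 ha using hex
  obtain ⟨ψ, hψ⟩ : ∃ ψ : Option (Fin J × Fin n) → K, ψ = fun o => o.elim (τ none)
    (fun p => (-1) ^ ((p.1 : ℕ) + 1) * a p.2 (p.1 + 1)) := ⟨_, rfl⟩
  have hsgn : ∀ k : ℕ, ((-1 : K) ^ k) * (-1) ^ k = 1 := fun k => by
    rw [← mul_pow]; norm_num
  have hsq : ∀ (i : Fin n) (l : ℕ), l ≤ J → MvPolynomial.aeval ψ (sq J mm i l) = a i l := by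
    intro i l hl
    cases l with
    | zero =>
      rw [sq, ha0, hψ]
      simp
    | succ l =>
      rw [sq, dif_pos (by omega), hψ]
      simp only [map_mul, map_pow, map_neg, map_one, MvPolynomial.aeval_X, Option.elim]
      rw [← mul_assoc, hsgn, one_mul]
  refine ⟨ψ, fun o => ?_⟩
  rcases o with _ | ⟨l, i⟩
  · simp [TT, hψ]
  · simp only [TT, Option.elim]
    split_ifs with h0
    · rw [MvPolynomial.aeval_X, hψ]
      have hJ : 0 < J := by have := l.2; omega
      have hl : l = ⟨0, hJ⟩ := Fin.ext h0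
      subst hl
      simp only [Option.elim]
      rw [ha1 i hJ]
      norm_num
    · rw [map_mul]
      have h2 := NR_map (MvPolynomial.aeval ψ :
        MvPolynomial (Option (Fin J × Fin n)) ℤ →ₐ[ℤ] K).toRingHom (sq J mm i) l
      have h3 : MvPolynomial.aeval ψ (NR (sq J mm i) l) = NR (a i) l := by
        refine h2.trans (NR_congr _ fun j hj => ?_)
        have := l.2
        exact hsq i j (by omega)
      rw [h3, ha i l (by omega) l.2]
      simp only [map_pow, map_neg, map_one]
      rw [← mul_assoc, hsgn, one_mul]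

theorem ai_WW {F : Subfield ℝ} (hF : SimLiouville F) (hinj : Function.Injective mm) {q : ℕ}
    (hq : 1 ≤ q) (hm : ∀ i, 1 ≤ mm i) : AlgebraicIndependent F (WW J mm q) := by
  classical
  have hai : AlgebraicIndependent F (pt J mm q) :=
    ai_of_measM hF _ (measM_EE J n mm hinj hm hq)
  rw [algebraicIndependent_iff]
  intro p hp
  obtain ⟨g, hg⟩ : ∃ g : Option (Fin J × Fin n) → MvPolynomial (Option (Fin J × Fin n)) F,
    g = fun o => MvPolynomial.map (algebraMap ℤ F) (TT J mm o) := ⟨_, rfl⟩
  have h1 : MvPolynomial.aeval (pt J mm q) (MvPolynomial.bind₁ g p) = 0 := by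
    rw [MvPolynomial.aeval_bind₁, ← hp]
    congr 2
    funext o
    rw [hg]
    simp only
    rw [MvPolynomial.aeval_map_algebraMap, aeval_TT J mm q hq hm]
  have h2 : MvPolynomial.bind₁ g p = 0 := (algebraicIndependent_iff.1 hai) _ h1
  have h3 : ∀ τ : Option (Fin J × Fin n) → F, (∀ i, 1 - τ none ^ mm i ≠ 0) →
      MvPolynomial.eval τ p = 0 := by
    intro τ hτ
    obtain ⟨ψ, hψ⟩ := TT_surj J mm τ hτ
    have h4 : MvPolynomial.aeval ψ (MvPolynomial.bind₁ g p) = 0 := by rw [h2, map_zero]
    rw [MvPolynomial.aeval_bind₁] at h4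
    have h5 : (fun o => MvPolynomial.aeval ψ (g o)) = τ := by
      funext o
      rw [hg]
      simp only
      rw [MvPolynomial.aeval_map_algebraMap, hψ]
    rw [h5] at h4
    exact h4
  obtain ⟨D, hD⟩ : ∃ D : MvPolynomial (Option (Fin J × Fin n)) F,
    D = ∏ i, (1 - MvPolynomial.X none ^ mm i) := ⟨_, rfl⟩
  have hD0 : D ≠ 0 := by
    rw [hD]
    refine Finset.prod_ne_zero_iff.2 fun i _ h0 => ?_
    have h4 := congrArg (MvPolynomial.eval (fun _ => (0 : F))) h0
    simp only [map_sub, map_one, map_pow, MvPolynomial.eval_X, map_zero] at h4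
    rw [zero_pow (by have := hm i; omega), sub_zero] at h4
    exact one_ne_zero h4
  have h6 : p * D = 0 := by
    refine MvPolynomial.funext fun τ => ?_
    rw [map_mul, map_zero]
    by_cases hτ : ∀ i, 1 - τ none ^ mm i ≠ 0
    · rw [h3 τ hτ, zero_mul]
    · push Not at hτ
      obtain ⟨i, hi⟩ := hτ
      have h7 : MvPolynomial.eval τ D = 0 := by
        rw [hD, map_prod]
        refine Finset.prod_eq_zero (Finset.mem_univ i) ?_
        simpa using hi
      rw [h7, mul_zero]
  exact (mul_eq_zero.1 h6).resolve_right hD0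

end


section

variable {F : Subfield ℝ}

lemma alg_adjoin_mono {S T : Set ℝ} (h : S ⊆ T) {y : ℝ}
    (hy : IsAlgebraic (Algebra.adjoin F S) y) : IsAlgebraic (Algebra.adjoin F T) y := by
  obtain ⟨p, hp, hp0⟩ := hy
  have hle : Algebra.adjoin F S ≤ Algebra.adjoin F T := Algebra.adjoin_mono h
  refine ⟨p.map (Subalgebra.inclusion hle).toRingHom, ?_, ?_⟩
  · intro h0
    apply hp
    exact (Polynomial.map_eq_zero_iff (f := (Subalgebra.inclusion hle).toRingHom)
      (Subalgebra.inclusion_injective hle)).1 h0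
  · rw [Polynomial.aeval_def, Polynomial.eval₂_map]
    rw [Polynomial.aeval_def] at hp0
    exact hp0

/-- `e` instead of `e^(-1/q)` -/
lemma swap_e {κ : Type} (Z : κ → ℝ) (q : ℕ) (hq : 1 ≤ q)
    (h : AlgebraicIndependent F (fun o : Option κ => o.elim (Real.exp (-1 / q)) Z)) :
    AlgebraicIndependent F (fun o : Option κ => o.elim (Real.exp 1) Z) := by
  rw [AlgebraicIndependent.option_iff] at h ⊢
  refine ⟨h.1, fun hcon => h.2 ?_⟩
  have e1 : Real.exp (-1 / q) ^ q = (Real.exp 1)⁻¹ := by
    rw [← Real.exp_nat_mul, ← Real.exp_neg]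
    congr 1
    have : (q : ℝ) ≠ 0 := by positivity
    field_simp
  refine IsAlgebraic.of_pow (n := q) (by omega) ?_
  rw [e1]
  exact hcon.inv

lemma ai_fin (hF : SimLiouville F) (J : ℕ) {n : ℕ} (x : Fin n → ℚ) (hinj : Function.Injective x)
    (hpos : ∀ i, 0 < x i) :
    AlgebraicIndependent F (fun o : Option (Fin J × Fin n) =>
      o.elim (Real.exp 1) (fun p => W p.1 (x p.2))) := by
  obtain ⟨q, hq⟩ : ∃ q, q = ∏ i, (x i).den := ⟨_, rfl⟩
  have hq1 : 1 ≤ q := by
    rw [hq]
    exact Nat.one_le_iff_ne_zero.2 (Finset.prod_ne_zero_iff.2 fun i _ => (x i).den_ne_zero)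
  have hx : ∀ i, ∃ m : ℕ, 1 ≤ m ∧ (m : ℝ) / q = x i := fun i =>
    nat_of_den (x i) (hpos i) q (by
      rw [hq]
      exact Finset.dvd_prod_of_mem (fun i => (x i).den) (Finset.mem_univ i)) hq1
  choose mm hm1 hmx using hx
  have hminj : Function.Injective mm := by
    intro i j hij
    apply hinj
    have h1 : ((x i : ℚ) : ℝ) = x j := by rw [← hmx i, ← hmx j, hij]
    exact_mod_cast h1
  have h := ai_WW J mm hF hminj hq1 hm1
  refine swap_e _ q hq1 ?_
  convert h using 1
  funext o
  rcases o with _ | ⟨l, i⟩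
  · rfl
  · simp only [WW, Option.elim]
    rw [hmx]

/-- **Algebraic independence** of `e` and the incomplete zeta values over `F` -/
theorem ai_Z (hF : SimLiouville F) :
    AlgebraicIndependent F (fun o : Option {p : ℕ × ℚ // 2 ≤ p.1 ∧ 0 < p.2} =>
      o.elim (Real.exp 1) (fun p => Zk p.1.1 p.1.2)) := by
  classical
  refine algebraicIndependent_of_finite_type fun t ht => ?_
  let s : Finset (ℕ × ℚ) := ht.toFinset.biUnion fun o => o.elim ∅ (fun p => {p.1})
  have hs : ∀ p : {p : ℕ × ℚ // 2 ≤ p.1 ∧ 0 < p.2}, some p ∈ t → p.1 ∈ s := by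
    intro p hp
    refine Finset.mem_biUnion.2 ⟨some p, ht.mem_toFinset.2 hp, ?_⟩
    simp
  let J : ℕ := s.sup Prod.fst
  let Y : Finset ℚ := (s.image Prod.snd).filter (fun x => 0 < x)
  have hJ : ∀ p : {p : ℕ × ℚ // 2 ≤ p.1 ∧ 0 < p.2}, some p ∈ t → p.1.1 ≤ J := fun p hp =>
    Finset.le_sup (f := Prod.fst) (hs p hp)
  have hY : ∀ p : {p : ℕ × ℚ // 2 ≤ p.1 ∧ 0 < p.2}, some p ∈ t → p.1.2 ∈ Y := fun p hp =>
    Finset.mem_filter.2 ⟨Finset.mem_image_of_mem _ (hs p hp), p.2.2⟩
  obtain ⟨e⟩ : Nonempty (Fin Y.card ≃ Y) := ⟨Y.equivFin.symm⟩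
  have h := ai_fin hF J (fun i : Fin Y.card => ((e i : Y) : ℚ))
    (fun i j hij => e.injective (Subtype.ext hij)) (fun i => (Finset.mem_filter.1 (e i).2).2)
  let f : t → Option (Fin J × Fin Y.card) := fun o =>
    match o with
    | ⟨none, _⟩ => none
    | ⟨some p, hp⟩ => some (⟨p.1.1 - 1, by have := hJ p hp; have := p.2.1; omega⟩,
        e.symm ⟨p.1.2, hY p hp⟩)
  have hf : Function.Injective f := by
    rintro ⟨o, ho⟩ ⟨o', ho'⟩ hoo
    cases o with
    | none =>
      cases o' with
      | none => rfl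
      | some p' => exact absurd hoo (by simp [f])
    | some p =>
      cases o' with
      | none => exact absurd hoo (by simp [f])
      | some p' =>
        simp only [f, Option.some.injEq, Prod.mk.injEq, Fin.mk.injEq,
          EmbeddingLike.apply_eq_iff_eq, Subtype.mk.injEq] at hoo
        have h1 := p.2.1
        have h2 := p'.2.1
        have : p = p' := Subtype.ext (Prod.ext (by omega) hoo.2)
        subst this
        rfl
  have h2 := h.comp f hf
  convert h2 using 1
  ext ⟨o, ho⟩
  cases o with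
  | none => rfl
  | some p =>
    have h1 := p.2.1
    simp only [Option.elim, Function.comp_apply, f, W, Equiv.apply_symm_apply]
    rw [if_neg (by omega), Nat.sub_add_cancel (by omega)]

/-- two of the numbers -/
lemma transc_diff (hF : SimLiouville F) {k : ℕ} (hk : 2 ≤ k) {x y : ℚ} (hx : 0 < x) (hxy : x < y) :
    Transcendental (Algebra.adjoin F ({Real.exp 1} : Set ℝ)) (Zk k y - Zk k x) := by
  have hy : 0 < y := hx.trans hxy
  let f : Option (Option (Fin 1)) → Option {p : ℕ × ℚ // 2 ≤ p.1 ∧ 0 < p.2} := fun o =>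
    match o with
    | none => some ⟨(k, y), hk, hy⟩
    | some none => some ⟨(k, x), hk, hx⟩
    | some (some _) => none
  have hf : Function.Injective f := by
    intro a b hab
    rcases a with _ | _ | a <;> rcases b with _ | _ | b <;> simp [f] at hab ⊢
    · exact hxy.ne' hab
    · exact hxy.ne hab
    · exact Subsingleton.elim _ _
  have h1 := (ai_Z hF).comp f hf
  have h2 : AlgebraicIndependent F (fun o : Option (Option (Fin 1)) => o.elim (Zk k y)
      (fun o' : Option (Fin 1) => o'.elim (Zk k x) fun _ => Real.exp 1)) := by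
    convert h1 using 1
    funext o
    rcases o with _ | _ | a <;> rfl
  rw [AlgebraicIndependent.option_iff] at h2
  intro hcon
  apply h2.2
  have h3 : IsAlgebraic (Algebra.adjoin F (Set.range fun o' : Option (Fin 1) =>
      o'.elim (Zk k x) fun _ => Real.exp 1)) (Zk k y - Zk k x) := by
    refine alg_adjoin_mono ?_ hcon
    rintro _ rfl
    exact ⟨some 0, rfl⟩
  have h4 : IsAlgebraic (Algebra.adjoin F (Set.range fun o' : Option (Fin 1) =>
      o'.elim (Zk k x) fun _ => Real.exp 1)) (Zk k x) :=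
    isAlgebraic_algebraMap (⟨Zk k x, Algebra.subset_adjoin ⟨none, rfl⟩⟩ :
      Algebra.adjoin F (Set.range fun o' : Option (Fin 1) =>
        o'.elim (Zk k x) fun _ => Real.exp 1))
  have h5 := h3.add h4
  rwa [sub_add_cancel] at h5

lemma transc_Z (hF : SimLiouville F) {k : ℕ} (hk : 2 ≤ k) {x : ℚ} (hx : 0 < x) :
    Transcendental (Algebra.adjoin F ({Real.exp 1} : Set ℝ)) (Zk k x) := by
  let f : Option (Fin 1) → Option {p : ℕ × ℚ // 2 ≤ p.1 ∧ 0 < p.2} := fun o =>
    match o with
    | none => some ⟨(k, x), hk, hx⟩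
    | some _ => none
  have hf : Function.Injective f := by
    intro a b hab
    rcases a with _ | a <;> rcases b with _ | b <;> simp [f] at hab ⊢
    exact Subsingleton.elim _ _
  have h1 := (ai_Z hF).comp f hf
  have h2 : AlgebraicIndependent F (fun o : Option (Fin 1) => o.elim (Zk k x)
      fun _ => Real.exp 1) := by
    convert h1 using 1
    funext o
    rcases o with _ | a <;> rfl
  rw [AlgebraicIndependent.option_iff] at h2
  have h3 : (Set.range fun _ : Fin 1 => Real.exp 1) = {Real.exp 1} := Set.range_const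
  rw [h3] at h2
  exact h2.2

end

end Pool.Agent.U456.IZ
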