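import Pool.Agent.Q163.LE.Sim

/-!
# The field of rational numbers is simultaneously Liouville
-/

set_option autoImplicit false

namespace Pool.Agent.U456.IZ

open Filter Topology Pool.Agent.Q163.LE

lemma sim_mono {F G : Subfield ℝ} (h : F ≤ G) (hG : SimLiouville G) : SimLiouville F :=
  fun s hs w q0 => hG s (fun x hx => h (hs x hx)) w q0

/-- `⊥` is the field of rational numbers -/
theorem sim_bot : SimLiouville (⊥ : Subfield ℝ) :=
  sim_mono bot_le (sim_apField (fun n : ℕ => (n : ℝ)) tendsto_natCast_atTop_atTop)

end Pool.Agent.U456.IZ
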