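import Pool.Agent.U456.IZ.Few

/-!
# The product of the tails for 2 and 3 and the span of the tails for 2, 3, 4, 5
-/

set_option autoImplicit false

open Set

namespace Pool.Agent.U456.IZ

open Pool.Agent.R352.E Pool.Agent.R352.Q Pool.Agent.N743.SS Pool.Agent.Q163.LE

section

variable {F : Subfield ℝ}

lemma zt_four : zt 4 = ((2 / 5 : ℚ) : ℝ) * zt 2 ^ 2 := by
  have h2 : zt 2 = Real.pi ^ 2 / 6 := by
    have h := hasSum_zeta_two
    have h1 := (hasSum_nat_add_iff' 1).2 h
    rw [zt]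
    have h3 := h1.tsum_eq
    simp only [Nat.cast_add, Nat.cast_one, Finset.range_one, Finset.sum_singleton,
      CharP.cast_eq_zero, ne_eq, OfNat.ofNat_ne_zero, not_false_eq_true, zero_pow, div_zero,
      sub_zero] at h3
    exact h3
  have h4 : zt 4 = Real.pi ^ 4 / 90 := by
    have h := hasSum_zeta_four
    have h1 := (hasSum_nat_add_iff' 1).2 h
    rw [zt]
    have h3 := h1.tsum_eq
    simp only [Nat.cast_add, Nat.cast_one, Finset.range_one, Finset.sum_singleton,
      CharP.cast_eq_zero, ne_eq, OfNat.ofNat_ne_zero, not_false_eq_true, zero_pow, div_zero,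
      sub_zero] at h3
    exact h3
  rw [h2, h4]
  push_cast
  ring

/-- too few generators -/
lemma contra {K : Finset ℕ} {x : ℚ} (hai : AlgebraicIndependent F (tup K x)) (T : Finset ℝ)
    (hT : T.card < K.card + 1) (he : Real.exp 1 ∈ T)
    (h : ∀ k ∈ K, Tl k x ∈ (MF F).closure (T : Set ℝ)) : False := by
  have h1 := card_le_finset hai (T := T) (by
    rintro (k | _)
    · exact h k k.2
    · exact self_clE (Finset.mem_coe.2 he))
  rw [Fintype.card_sum, Fintype.card_coe, Fintype.card_unit] at h1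
  omega

lemma dep_pos (x : ℚ) {a b c d : ℝ}
    (ha : a ∈ (MF F).closure {Real.exp 1}) (hb : b ∈ (MF F).closure {Real.exp 1})
    (hc : c ∈ (MF F).closure {Real.exp 1}) (hd : d ∈ (MF F).closure {Real.exp 1})
    (h : Tl 2 x * Tl 3 x = a * Tl 2 x + b * Tl 3 x + c * Tl 4 x + d * Tl 5 x) :
    ¬ AlgebraicIndependent F (tup {2, 3, 4, 5} x) := by
  intro hai
  have up : ∀ {z : ℝ} (T : Finset ℝ), Real.exp 1 ∈ T → z ∈ (MF F).closure {Real.exp 1} →
      z ∈ (MF F).closure (T : Set ℝ) := fun T hT hz =>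
    mono_clE (singleton_subset_iff.2 (Finset.mem_coe.2 hT)) hz
  have me : ∀ {z : ℝ} (T : Finset ℝ), z ∈ T → z ∈ (MF F).closure (T : Set ℝ) := fun T hT =>
    self_clE (Finset.mem_coe.2 hT)
  have hK : ({2, 3, 4, 5} : Finset ℕ).card = 4 := by decide
  have four : ∀ p q r : ℝ, ({Real.exp 1, p, q, r} : Finset ℝ).card <
      ({2, 3, 4, 5} : Finset ℕ).card + 1 := fun p q r => by
    rw [hK]
    exact Nat.lt_succ_of_le Finset.card_le_four
  by_cases hd0 : d = 0
  · by_cases hc0 : c = 0
    · rw [hd0, hc0] at h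
      by_cases h3 : Tl 3 x = a
      · refine contra hai {Real.exp 1, Tl 2 x, Tl 4 x, Tl 5 x} (four _ _ _) (by simp) ?_
        intro k hk
        simp only [Finset.mem_insert, Finset.mem_singleton] at hk
        rcases hk with rfl | rfl | rfl | rfl
        · exact me _ (by simp)
        · rw [h3]
          exact up _ (by simp) ha
        · exact me _ (by simp)
        · exact me _ (by simp)
      · have h5 : Tl 2 x = b * Tl 3 x * (Tl 3 x - a)⁻¹ := by
          have h6 : Tl 3 x - a ≠ 0 := sub_ne_zero.2 h3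
          field_simp
          linarith
        refine contra hai {Real.exp 1, Tl 3 x, Tl 4 x, Tl 5 x} (four _ _ _) (by simp) ?_
        intro k hk
        simp only [Finset.mem_insert, Finset.mem_singleton] at hk
        rcases hk with rfl | rfl | rfl | rfl
        · rw [h5]
          have h7 : Tl 3 x ∈ (MF F).closure
              (({Real.exp 1, Tl 3 x, Tl 4 x, Tl 5 x} : Finset ℝ) : Set ℝ) := me _ (by simp)
          exact mul_clE (mul_clE (up _ (by simp) hb) h7)
            (inv_clE (sub_clE h7 (up _ (by simp) ha)))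
        · exact me _ (by simp)
        · exact me _ (by simp)
        · exact me _ (by simp)
    · have h5 : Tl 4 x = (Tl 2 x * Tl 3 x - a * Tl 2 x - b * Tl 3 x) * c⁻¹ := by
        rw [hd0] at h
        field_simp
        linarith
      refine contra hai {Real.exp 1, Tl 2 x, Tl 3 x, Tl 5 x} (four _ _ _) (by simp) ?_
      have m2 : Tl 2 x ∈ (MF F).closure
          (({Real.exp 1, Tl 2 x, Tl 3 x, Tl 5 x} : Finset ℝ) : Set ℝ) := me _ (by simp)
      have m3 : Tl 3 x ∈ (MF F).closure
          (({Real.exp 1, Tl 2 x, Tl 3 x, Tl 5 x} : Finset ℝ) : Set ℝ) := me _ (by simp)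
      intro k hk
      simp only [Finset.mem_insert, Finset.mem_singleton] at hk
      rcases hk with rfl | rfl | rfl | rfl
      · exact m2
      · exact m3
      · rw [h5]
        exact mul_clE (sub_clE (sub_clE (mul_clE m2 m3) (mul_clE (up _ (by simp) ha) m2))
          (mul_clE (up _ (by simp) hb) m3)) (inv_clE (up _ (by simp) hc))
      · exact me _ (by simp)
  · have h5 : Tl 5 x = (Tl 2 x * Tl 3 x - a * Tl 2 x - b * Tl 3 x - c * Tl 4 x) * d⁻¹ := by
      field_simp
      linarith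
    refine contra hai {Real.exp 1, Tl 2 x, Tl 3 x, Tl 4 x} (four _ _ _) (by simp) ?_
    have m2 : Tl 2 x ∈ (MF F).closure
        (({Real.exp 1, Tl 2 x, Tl 3 x, Tl 4 x} : Finset ℝ) : Set ℝ) := me _ (by simp)
    have m3 : Tl 3 x ∈ (MF F).closure
        (({Real.exp 1, Tl 2 x, Tl 3 x, Tl 4 x} : Finset ℝ) : Set ℝ) := me _ (by simp)
    have m4 : Tl 4 x ∈ (MF F).closure
        (({Real.exp 1, Tl 2 x, Tl 3 x, Tl 4 x} : Finset ℝ) : Set ℝ) := me _ (by simp)
    intro k hk
    simp only [Finset.mem_insert, Finset.mem_singleton] at hk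
    rcases hk with rfl | rfl | rfl | rfl
    · exact m2
    · exact m3
    · exact m4
    · rw [h5]
      exact mul_clE (sub_clE (sub_clE (sub_clE (mul_clE m2 m3) (mul_clE (up _ (by simp) ha) m2))
        (mul_clE (up _ (by simp) hb) m3)) (mul_clE (up _ (by simp) hc) m4))
        (inv_clE (up _ (by simp) hd))

lemma dep_zero {a b c d : ℝ}
    (ha : a ∈ (MF F).closure {Real.exp 1}) (hb : b ∈ (MF F).closure {Real.exp 1})
    (hc : c ∈ (MF F).closure {Real.exp 1}) (hd : d ∈ (MF F).closure {Real.exp 1})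
    (h : Tl 2 0 * Tl 3 0 = a * Tl 2 0 + b * Tl 3 0 + c * Tl 4 0 + d * Tl 5 0) :
    ¬ AlgebraicIndependent F (tup {2, 3, 5} 0) := by
  intro hai
  have h4 : Tl 4 0 = ((2 / 5 : ℚ) : ℝ) * Tl 2 0 ^ 2 := by
    rw [Tl, Tl, if_pos rfl, if_pos rfl]
    exact zt_four
  rw [h4] at h
  have up : ∀ {z : ℝ} (T : Finset ℝ), Real.exp 1 ∈ T → z ∈ (MF F).closure {Real.exp 1} →
      z ∈ (MF F).closure (T : Set ℝ) := fun T hT hz =>
    mono_clE (singleton_subset_iff.2 (Finset.mem_coe.2 hT)) hz
  have me : ∀ {z : ℝ} (T : Finset ℝ), z ∈ T → z ∈ (MF F).closure (T : Set ℝ) := fun T hT =>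
    self_clE (Finset.mem_coe.2 hT)
  have hK : ({2, 3, 5} : Finset ℕ).card = 3 := by decide
  have three : ∀ p q : ℝ, ({Real.exp 1, p, q} : Finset ℝ).card <
      ({2, 3, 5} : Finset ℕ).card + 1 := fun p q => by
    rw [hK]
    exact Nat.lt_succ_of_le Finset.card_le_three
  by_cases hd0 : d = 0
  · rw [hd0] at h
    by_cases h2 : Tl 2 0 = b
    · refine contra hai {Real.exp 1, Tl 3 0, Tl 5 0} (three _ _) (by simp) ?_
      intro k hk
      simp only [Finset.mem_insert, Finset.mem_singleton] at hk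
      rcases hk with rfl | rfl | rfl
      · rw [h2]
        exact up _ (by simp) hb
      · exact me _ (by simp)
      · exact me _ (by simp)
    · have h5 : Tl 3 0 = (Tl 2 0 * (a - (0 - c) * (((2 / 5 : ℚ) : ℝ) * Tl 2 0))) *
          (Tl 2 0 - b)⁻¹ := by
        have h6 : Tl 2 0 - b ≠ 0 := sub_ne_zero.2 h2
        rw [eq_mul_inv_iff_mul_eq₀ h6]
        linarith
      refine contra hai {Real.exp 1, Tl 2 0, Tl 5 0} (three _ _) (by simp) ?_
      have m2 : Tl 2 0 ∈ (MF F).closure
          (({Real.exp 1, Tl 2 0, Tl 5 0} : Finset ℝ) : Set ℝ) := me _ (by simp)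
      have m0 : (0 : ℝ) ∈ (MF F).closure
          (({Real.exp 1, Tl 2 0, Tl 5 0} : Finset ℝ) : Set ℝ) := by
        have := rat_clE (F := F) (S := (({Real.exp 1, Tl 2 0, Tl 5 0} : Finset ℝ) : Set ℝ)) 0
        simpa using this
      intro k hk
      simp only [Finset.mem_insert, Finset.mem_singleton] at hk
      rcases hk with rfl | rfl | rfl
      · exact m2
      · rw [h5]
        exact mul_clE (mul_clE m2 (sub_clE (up _ (by simp) ha) (mul_clE
          (sub_clE m0 (up _ (by simp) hc)) (mul_clE (rat_clE _) m2))))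
          (inv_clE (sub_clE m2 (up _ (by simp) hb)))
      · exact me _ (by simp)
  · have h5 : Tl 5 0 = (Tl 2 0 * Tl 3 0 - a * Tl 2 0 - b * Tl 3 0 -
        c * (((2 / 5 : ℚ) : ℝ) * Tl 2 0 ^ 2)) * d⁻¹ := by
      rw [eq_mul_inv_iff_mul_eq₀ hd0]
      linarith
    refine contra hai {Real.exp 1, Tl 2 0, Tl 3 0} (three _ _) (by simp) ?_
    have m2 : Tl 2 0 ∈ (MF F).closure
        (({Real.exp 1, Tl 2 0, Tl 3 0} : Finset ℝ) : Set ℝ) := me _ (by simp)
    have m3 : Tl 3 0 ∈ (MF F).closure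
        (({Real.exp 1, Tl 2 0, Tl 3 0} : Finset ℝ) : Set ℝ) := me _ (by simp)
    intro k hk
    simp only [Finset.mem_insert, Finset.mem_singleton] at hk
    rcases hk with rfl | rfl | rfl
    · exact m2
    · exact m3
    · rw [h5]
      exact mul_clE (sub_clE (sub_clE (sub_clE (mul_clE m2 m3) (mul_clE (up _ (by simp) ha) m2))
        (mul_clE (up _ (by simp) hb) m3)) (mul_clE (up _ (by simp) hc)
          (mul_clE (rat_clE _) (pow_clE m2 2)))) (inv_clE (up _ (by simp) hd))

/-- **At most three exceptions.** -/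
theorem three_exceptions (hF : SimLiouville F) (P : ℚ → Prop)
    (hP : ∀ x, 0 < x → P x → ¬ AlgebraicIndependent F (tup {2, 3, 4, 5} x))
    (hP0 : P 0 → ¬ AlgebraicIndependent F (tup {2, 3, 5} 0)) :
    {x : ℚ | 0 ≤ x ∧ P x}.encard ≤ (2 + 1 : ℕ) := by
  classical
  have h4 : Tl 4 0 = ((2 / 5 : ℚ) : ℝ) * Tl 2 0 ^ 2 := by
    rw [Tl, Tl, if_pos rfl, if_pos rfl]
    exact zt_four
  refine encard_exceptions hF {2, 3, 4, 5} (by decide) 2 P hP ?_ ?_
  · refine ⟨{Tl 2 0, Tl 3 0, Tl 5 0}, Finset.card_le_three, ?_⟩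
    have m2 : Tl 2 0 ∈ (MF F).closure (insert (Real.exp 1)
        (({Tl 2 0, Tl 3 0, Tl 5 0} : Finset ℝ) : Set ℝ)) := self_clE (by simp)
    intro k hk
    simp only [Finset.mem_insert, Finset.mem_singleton] at hk
    rcases hk with rfl | rfl | rfl | rfl
    · exact m2
    · exact self_clE (by simp)
    · rw [h4]
      exact mul_clE (rat_clE _) (pow_clE m2 2)
    · exact self_clE (by simp)
  · intro h0
    obtain ⟨B, hB1, hB2⟩ := small_gen hF {2, 3, 5} 0 (hP0 h0)
    have hc : ({2, 3, 5} : Finset ℕ).card = 3 := by decide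
    refine ⟨B, by omega, ?_⟩
    intro k hk
    simp only [Finset.mem_insert, Finset.mem_singleton] at hk
    rcases hk with rfl | rfl | rfl | rfl
    · exact hB2 2 (by decide)
    · exact hB2 3 (by decide)
    · rw [h4]
      exact mul_clE (rat_clE _) (pow_clE (hB2 2 (by decide)) 2)
    · exact hB2 5 (by decide)

end

end Pool.Agent.U456.IZ
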