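import Pool.Agent.U456.IZ.Liou

/-!
# Tuples of tails
-/

set_option autoImplicit false

open Set

namespace Pool.Agent.U456.IZ

open Pool.Agent.R352.E Pool.Agent.R352.Q Pool.Agent.N743.SS Pool.Agent.Q163.LE

/-- the matroid of algebraic independence over `F` -/
noncomputable abbrev MF (F : Subfield ℝ) : Matroid ℝ := AlgebraicIndependent.matroid F ℝ

section

variable {F : Subfield ℝ}

lemma mem_clE {S : Set ℝ} {x : ℝ} :
    x ∈ (MF F).closure S ↔ IsAlgebraic (Algebra.adjoin F S) x := by
  rw [AlgebraicIndependent.matroid_closure_eq]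
  exact Iff.rfl

lemma sub_clE {S : Set ℝ} {x y : ℝ} (hx : x ∈ (MF F).closure S) (hy : y ∈ (MF F).closure S) :
    x - y ∈ (MF F).closure S := mem_clE.2 ((mem_clE.1 hx).sub (mem_clE.1 hy))

lemma card_le_rk {ι : Type*} [Fintype ι] {x : ι → ℝ} (hx : AlgebraicIndependent F x) {T : Set ℝ}
    (h : ∀ i, x i ∈ (MF F).closure T) : (Fintype.card ι : ℕ∞) ≤ (MF F).eRk T := by
  have h1 : (MF F).Indep (range x) := hx.to_subtype_range
  have h2 : range x ⊆ (MF F).closure T := by
    rintro _ ⟨i, rfl⟩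
    exact h i
  calc (Fintype.card ι : ℕ∞) = (range x).encard := by
        rw [← image_univ, hx.injective.injOn.encard_image, encard_univ, ENat.card_eq_coe_fintype_card]
    _ ≤ (MF F).eRk ((MF F).closure T) := h1.encard_le_eRk_of_subset h2
    _ = (MF F).eRk T := Matroid.eRk_closure_eq (MF F) T

lemma card_le_finset {ι : Type*} [Fintype ι] {x : ι → ℝ} (hx : AlgebraicIndependent F x)
    {T : Finset ℝ} (h : ∀ i, x i ∈ (MF F).closure (T : Set ℝ)) : Fintype.card ι ≤ T.card := by
  have h1 := (card_le_rk hx h).trans (Matroid.eRk_le_encard _ _)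
  rw [encard_coe_eq_coe_finsetCard] at h1
  exact_mod_cast h1

lemma ai_of_rank {κ : Type*} [Fintype κ] {y : κ → ℝ}
    (h1 : (Fintype.card κ : ℕ∞) ≤ (MF F).eRk (range y)) : AlgebraicIndependent F y := by
  have h2 : (range y).encard ≤ Fintype.card κ := by
    rw [← image_univ, ← ENat.card_eq_coe_fintype_card, ← encard_univ]
    exact encard_image_le _ _
  have h3 : (Fintype.card κ : ℕ∞) ≤ (range y).encard := h1.trans (Matroid.eRk_le_encard _ _)
  have hfin : (range y).Finite := finite_range y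
  have h4 : (MF F).Indep (range y) := by
    refine ((MF F).isRkFinite_of_finite hfin).indep_of_encard_le_eRk ?_
    exact h2.trans h1
  have hinj : Function.Injective y := by
    rw [← injOn_univ]
    refine Finite.injOn_of_encard_image_eq finite_univ ?_
    rw [image_univ]
    refine le_antisymm (h2.trans ?_) ?_
    · rw [encard_univ, ENat.card_eq_coe_fintype_card]
    · rw [encard_univ, ENat.card_eq_coe_fintype_card]; exact h3
  exact (algebraicIndependent_subtype_range hinj).1 h4

/-- a lower bound for the transcendence degree of a generated field -/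
lemma trdeg_geF {A : Set ℝ} {d : ℕ} (h : (d : ℕ∞) ≤ (MF F).eRk A) :
    (d : Cardinal) ≤ Algebra.trdeg F (IntermediateField.adjoin F A) := by
  obtain ⟨I, hI⟩ := (MF F).exists_isBasis A (subset_univ _)
  rw [← hI.encard_eq_eRk] at h
  obtain ⟨t, htI, htc⟩ := exists_subset_encard_eq h
  have hfin : t.Finite := by
    rw [← encard_lt_top_iff, htc]
    exact ENat.natCast_lt_top _
  have hind : AlgebraicIndependent F (fun i : t => (i : ℝ)) := hI.indep.subset htI
  have htA : ∀ i : t, (i : ℝ) ∈ IntermediateField.adjoin F A := fun i =>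
    IntermediateField.subset_adjoin F A (hI.subset (htI i.2))
  let f : t → IntermediateField.adjoin F A := fun i => ⟨i, htA i⟩
  have hf : AlgebraicIndependent F f :=
    ((IntermediateField.adjoin F A).val.algebraicIndependent_iff
      (IntermediateField.adjoin F A).val.injective).1 hind
  have h5 := hf.cardinalMk_le_trdeg
  have : Fintype t := hfin.fintype
  have h6 : Cardinal.mk t = (d : Cardinal) := by
    rw [Cardinal.mk_fintype]
    have h7 : (Fintype.card t : ℕ∞) = d := by
      rw [← ENat.card_eq_coe_fintype_card]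
      exact htc
    exact_mod_cast h7
  rwa [h6] at h5

/-- the numbers `R_k(x)`, `x ≥ 0` -/
noncomputable def Tl (k : ℕ) (x : ℚ) : ℝ := if x = 0 then zt k else Rk k x

lemma Tl_sub (k : ℕ) {x : ℚ} (hx : x ≠ 0) : Zk k x = Tl k 0 - Tl k x := by
  rw [Tl, Tl, if_pos rfl, if_neg hx, Rk]
  ring

/-- the family -/
lemma ai_grid (hF : SimLiouville F) (K : Finset ℕ) (hK : ∀ k ∈ K, 2 ≤ k) (X : Finset ℚ)
    (hX : ∀ x ∈ X, 0 < x) : AlgebraicIndependent F (fun o : Option (K × X) =>
      o.elim (Real.exp 1) (fun p => Zk p.1 p.2)) := by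
  let f : Option (K × X) → Option {p : ℕ × ℚ // 2 ≤ p.1 ∧ 0 < p.2} :=
    Option.map fun p => ⟨((p.1 : ℕ), (p.2 : ℚ)), hK _ p.1.2, hX _ p.2.2⟩
  have hf : Function.Injective f := by
    refine Option.map_injective ?_
    intro a b hab
    simp only [Subtype.mk.injEq, Prod.mk.injEq] at hab
    exact Prod.ext (Subtype.ext hab.1) (Subtype.ext hab.2)
  have h := (ai_Z hF).comp f hf
  convert h using 1
  funext o
  cases o <;> rfl

lemma transc_e (hF : SimLiouville F) : Transcendental F (Real.exp 1) :=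
  transc_of_measT hF _ Pool.Agent.TH456.TM.measT_e

/-- the tuple, and `e` -/
noncomputable def tup (K : Finset ℕ) (x : ℚ) : K ⊕ Unit → ℝ :=
  Sum.elim (fun k : K => Tl k x) (fun _ => Real.exp 1)

lemma tup_iff (hF : SimLiouville F) (K : Finset ℕ) (x : ℚ) :
    AlgebraicIndependent (Algebra.adjoin F ({Real.exp 1} : Set ℝ)) (fun k : K => Tl k x) ↔
      AlgebraicIndependent F (tup K x) := by
  have h1 : range (fun _ : Unit => Real.exp 1) = {Real.exp 1} := Set.range_const
  have h2 : AlgebraicIndependent F (fun _ : Unit => Real.exp 1) := by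
    rw [algebraicIndependent_unique_type_iff]
    exact transc_e hF
  rw [tup, AlgebraicIndependent.sumElim_iff, h1]
  exact ⟨fun h => ⟨h2, h⟩, fun h => h.2⟩

lemma range_tup (K : Finset ℕ) (x : ℚ) :
    range (tup K x) = insert (Real.exp 1) ((K.image fun k => Tl k x : Finset ℝ) : Set ℝ) := by
  ext z
  simp only [tup, mem_range, Sum.exists, Sum.elim_inl, Sum.elim_inr, mem_insert_iff,
    Finset.coe_image, mem_image, Finset.mem_coe]
  constructor
  · rintro (⟨k, hk⟩ | ⟨_, h⟩)
    · exact Or.inr ⟨k, k.2, hk⟩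
    · exact Or.inl h.symm
  · rintro (h | ⟨k, hk, h⟩)
    · exact Or.inr ⟨(), h.symm⟩
    · exact Or.inl ⟨⟨k, hk⟩, h⟩

/-- a small generating set for an exceptional tuple -/
lemma small_gen (hF : SimLiouville F) (K : Finset ℕ) (x : ℚ)
    (h : ¬ AlgebraicIndependent F (tup K x)) : ∃ B : Finset ℝ, B.card + 1 ≤ K.card ∧
      ∀ k ∈ K, Tl k x ∈ (MF F).closure (insert (Real.exp 1) (B : Set ℝ)) := by
  classical
  have hrk : ¬ ((Fintype.card (K ⊕ Unit) : ℕ∞) ≤ (MF F).eRk (range (tup K x))) :=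
    fun hcon => h (ai_of_rank hcon)
  have he : (MF F).Indep {Real.exp 1} := by
    have h2 : AlgebraicIndependent F (fun _ : Unit => Real.exp 1) := by
      rw [algebraicIndependent_unique_type_iff]
      exact transc_e hF
    have h3 := h2.to_subtype_range
    have h1 : range (fun _ : Unit => Real.exp 1) = {Real.exp 1} := Set.range_const
    rw [h1] at h3
    exact h3
  have hmem : ({Real.exp 1} : Set ℝ) ⊆ range (tup K x) := by
    rw [range_tup]
    exact singleton_subset_iff.2 (mem_insert _ _)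
  obtain ⟨I, hI, heI⟩ := he.subset_isBasis_of_subset hmem (subset_univ _)
  have hfin : (range (tup K x)).Finite := finite_range _
  have hIfin : I.Finite := hfin.subset hI.subset
  obtain ⟨I', rfl⟩ : ∃ I' : Finset ℝ, (I' : Set ℝ) = I := ⟨hIfin.toFinset, hIfin.coe_toFinset⟩
  rw [← hI.encard_eq_eRk, encard_coe_eq_coe_finsetCard, not_le] at hrk
  have hc : I'.card < Fintype.card (K ⊕ Unit) := by exact_mod_cast hrk
  rw [Fintype.card_sum, Fintype.card_coe, Fintype.card_unit] at hc
  have heI' : Real.exp 1 ∈ I' := by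
    have := singleton_subset_iff.1 heI
    exact_mod_cast this
  refine ⟨I'.erase (Real.exp 1), ?_, fun k hk => ?_⟩
  · rw [Finset.card_erase_add_one heI']
    omega
  · have h1 : Tl k x ∈ (MF F).closure (I' : Set ℝ) := by
      refine hI.subset_closure ?_
      rw [range_tup]
      refine mem_insert_of_mem _ ?_
      rw [Finset.coe_image]
      exact ⟨k, hk, rfl⟩
    have h2 : insert (Real.exp 1) ((I'.erase (Real.exp 1) : Finset ℝ) : Set ℝ) = (I' : Set ℝ) := by
      rw [← Finset.coe_insert, Finset.insert_erase heI']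
    rwa [h2]

/-- **At most `r` exceptions.** -/
theorem few_exceptions (hF : SimLiouville F) (K : Finset ℕ) (hK : ∀ k ∈ K, 2 ≤ k) (X : Finset ℚ)
    (hX : ∀ x ∈ X, 0 ≤ x) (h : ∀ x ∈ X, ¬ AlgebraicIndependent F (tup K x)) :
    X.card ≤ K.card := by
  classical
  have hex : ∀ x : ℚ, ∃ B : Finset ℝ, x ∈ X → B.card + 1 ≤ K.card ∧
      ∀ k ∈ K, Tl k x ∈ (MF F).closure (insert (Real.exp 1) (B : Set ℝ)) := by
    intro x
    by_cases hx : x ∈ X
    · obtain ⟨B, hB⟩ := small_gen hF K x (h x hx)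
      exact ⟨B, fun _ => hB⟩
    · exact ⟨∅, fun h => absurd h hx⟩
  choose B hB using hex
  obtain ⟨T, hT⟩ : ∃ T : Finset ℝ, T = if (0 : ℚ) ∈ X then ∅ else K.image fun k => Tl k 0 :=
    ⟨_, rfl⟩
  obtain ⟨U, hU⟩ : ∃ U : Finset ℝ, U = insert (Real.exp 1) (X.biUnion B ∪ T) := ⟨_, rfl⟩
  have hcl : ∀ x ∈ X, ∀ k ∈ K, Tl k x ∈ (MF F).closure (U : Set ℝ) := by
    intro x hx k hk
    refine (MF F).closure_subset_closure ?_ ((hB x hx).2 k hk)
    rw [hU, Finset.coe_insert]
    refine insert_subset_insert ?_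
    intro z hz
    rw [Finset.mem_coe] at hz ⊢
    exact Finset.mem_union_left _ (Finset.mem_biUnion.2 ⟨x, hx, hz⟩)
  have hcl0 : ∀ k ∈ K, Tl k 0 ∈ (MF F).closure (U : Set ℝ) := by
    intro k hk
    by_cases h0 : (0 : ℚ) ∈ X
    · exact hcl 0 h0 k hk
    · refine (MF F).subset_closure _ (subset_univ _) ?_
      rw [Finset.mem_coe, hU]
      refine Finset.mem_insert_of_mem (Finset.mem_union_right _ ?_)
      rw [hT, if_neg h0]
      exact Finset.mem_image_of_mem _ hk
  have hai := ai_grid hF K hK (X.erase 0) (fun x hx =>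
    lt_of_le_of_ne (hX x (Finset.mem_of_mem_erase hx)) (Finset.ne_of_mem_erase hx).symm)
  have hcard := card_le_finset hai (T := U) (by
    rintro (_ | ⟨k, x⟩)
    · refine (MF F).subset_closure _ (subset_univ _) ?_
      rw [Finset.mem_coe, hU]
      exact Finset.mem_insert_self _ _
    · have h1 : ((x : ℚ)) ≠ 0 := Finset.ne_of_mem_erase x.2
      show Zk k x ∈ _
      rw [Tl_sub (k : ℕ) h1]
      exact sub_clE (hcl0 k k.2) (hcl x (Finset.mem_of_mem_erase x.2) k k.2))
  rw [Fintype.card_option, Fintype.card_prod, Fintype.card_coe, Fintype.card_coe] at hcard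
  have hU1 : U.card ≤ (∑ x ∈ X, (B x).card) + T.card + 1 := by
    rw [hU]
    refine (Finset.card_insert_le _ _).trans ?_
    have h1 := Finset.card_union_le (X.biUnion B) T
    have h2 := Finset.card_biUnion_le (s := X) (t := B)
    omega
  have hsum : ∑ x ∈ X, (B x).card + X.card ≤ X.card * K.card := by
    have h1 : ∑ x ∈ X, ((B x).card + 1) ≤ ∑ x ∈ X, K.card :=
      Finset.sum_le_sum fun x hx => (hB x hx).1
    rw [Finset.sum_add_distrib, Finset.sum_const, Finset.sum_const, smul_eq_mul, smul_eq_mul,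
      mul_one] at h1
    exact h1
  by_cases h0 : (0 : ℚ) ∈ X
  · have hT0 : T.card = 0 := by rw [hT, if_pos h0, Finset.card_empty]
    rw [Finset.card_erase_of_mem h0] at hcard
    have hpos : 1 ≤ X.card := Finset.card_pos.2 ⟨0, h0⟩
    obtain ⟨m, hm⟩ : ∃ m, X.card = m + 1 := ⟨X.card - 1, by omega⟩
    rw [hm] at hcard hsum ⊢
    rw [Nat.add_sub_cancel] at hcard
    have h3 : (m + 1) * K.card = K.card * m + K.card := by ring
    omega
  · have hT0 : T.card ≤ K.card := by
      rw [hT, if_neg h0]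
      exact Finset.card_image_le
    rw [Finset.erase_eq_of_notMem h0] at hcard
    have h3 : X.card * K.card = K.card * X.card := by ring
    omega

/-- **The transcendence degree.** -/
theorem tuples_trdeg (hF : SimLiouville F) (K : Finset ℕ) (hK : ∀ k ∈ K, 2 ≤ k) (X : Finset ℚ)
    (hX : ∀ x ∈ X, 0 ≤ x) (hne : X.Nonempty) :
    ((K.card * (X.card - 1) + 1 : ℕ) : Cardinal) ≤ Algebra.trdeg F (IntermediateField.adjoin F
      ({Real.exp 1} ∪ {z : ℝ | ∃ k ∈ K, ∃ x ∈ X, z = Tl k x})) := by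
  classical
  refine trdeg_geF ?_
  obtain ⟨A, hA⟩ : ∃ A : Set ℝ, A = {Real.exp 1} ∪ {z : ℝ | ∃ k ∈ K, ∃ x ∈ X, z = Tl k x} :=
    ⟨_, rfl⟩
  rw [← hA]
  have hAfin : A.Finite := by
    rw [hA]
    refine (finite_singleton _).union ?_
    refine ((K ×ˢ X).finite_toSet.image fun p => Tl p.1 p.2).subset ?_
    rintro z ⟨k, hk, x, hx, rfl⟩
    exact ⟨(k, x), by simp [hk, hx], rfl⟩
  obtain ⟨I, hI⟩ := (MF F).exists_isBasis A (subset_univ _)
  have hIfin : I.Finite := hAfin.subset hI.subset
  obtain ⟨I', rfl⟩ : ∃ I' : Finset ℝ, (I' : Set ℝ) = I := ⟨hIfin.toFinset, hIfin.coe_toFinset⟩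
  rw [← hI.encard_eq_eRk, encard_coe_eq_coe_finsetCard]
  obtain ⟨T, hT⟩ : ∃ T : Finset ℝ, T = if (0 : ℚ) ∈ X then ∅ else K.image fun k => Tl k 0 :=
    ⟨_, rfl⟩
  have hclA : A ⊆ (MF F).closure ((I' ∪ T : Finset ℝ) : Set ℝ) := by
    refine hI.subset_closure.trans ((MF F).closure_subset_closure ?_)
    rw [Finset.coe_union]
    exact subset_union_left
  have hcl0 : ∀ k ∈ K, Tl k 0 ∈ (MF F).closure ((I' ∪ T : Finset ℝ) : Set ℝ) := by
    intro k hk
    by_cases h0 : (0 : ℚ) ∈ X
    · refine hclA ?_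
      rw [hA]
      exact Or.inr ⟨k, hk, 0, h0, rfl⟩
    · refine (MF F).subset_closure _ (subset_univ _) ?_
      rw [Finset.mem_coe]
      refine Finset.mem_union_right _ ?_
      rw [hT, if_neg h0]
      exact Finset.mem_image_of_mem _ hk
  have hai := ai_grid hF K hK (X.erase 0) (fun x hx =>
    lt_of_le_of_ne (hX x (Finset.mem_of_mem_erase hx)) (Finset.ne_of_mem_erase hx).symm)
  have hcard := card_le_finset hai (T := I' ∪ T) (by
    rintro (_ | ⟨k, x⟩)
    · refine hclA ?_
      rw [hA]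
      exact Or.inl rfl
    · have h1 : ((x : ℚ)) ≠ 0 := Finset.ne_of_mem_erase x.2
      show Zk k x ∈ _
      rw [Tl_sub (k : ℕ) h1]
      refine sub_clE (hcl0 k k.2) (hclA ?_)
      rw [hA]
      exact Or.inr ⟨k, k.2, x, Finset.mem_of_mem_erase x.2, rfl⟩)
  rw [Fintype.card_option, Fintype.card_prod, Fintype.card_coe, Fintype.card_coe] at hcard
  have hu := Finset.card_union_le I' T
  have hgoal : K.card * (X.card - 1) + 1 ≤ I'.card := by
    by_cases h0 : (0 : ℚ) ∈ X
    · have hT0 : T.card = 0 := by rw [hT, if_pos h0, Finset.card_empty]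
      rw [Finset.card_erase_of_mem h0] at hcard
      omega
    · have hT0 : T.card ≤ K.card := by
        rw [hT, if_neg h0]
        exact Finset.card_image_le
      rw [Finset.erase_eq_of_notMem h0] at hcard
      have hpos : 1 ≤ X.card := Finset.card_pos.2 hne
      obtain ⟨m, hm⟩ : ∃ m, X.card = m + 1 := ⟨X.card - 1, by omega⟩
      rw [hm] at hcard ⊢
      rw [Nat.add_sub_cancel]
      have h3 : K.card * (m + 1) = K.card * m + K.card := by ring
      omega
  exact_mod_cast hgoal

end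

end Pool.Agent.U456.IZ
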