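import Pool.Agent.U456.IZ.Joint

/-!
# The `k`-fold integrals
-/

set_option autoImplicit false

open MeasureTheory Set

namespace Pool.Agent.U456.IZ

open Pool.Agent.R352.E Pool.Agent.R352.Q
open Pool.Agent.R356 (JointR)

/-- the points of the octant with a coordinate at least `x` -/
def restk (k : ℕ) (x : ℝ) : Set (Fin k → ℝ) := {t | (∀ j, 0 < t j) ∧ ∃ j, x ≤ t j}

/-- the integrand -/
noncomputable def igr (k : ℕ) (t : Fin k → ℝ) : ℂ :=
  (∑ j : Fin k, Complex.exp (2 * Real.pi * Complex.I / k) ^ (j : ℕ) * (Real.log (t j) : ℂ)) ^ k *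
    ((Real.exp (-∑ j, t j) : ℝ) : ℂ)

/-- the `k`-fold integral -/
noncomputable def tailk (k : ℕ) (x : ℝ) : ℂ := (-1) ^ k / k.factorial * ∫ t in restk k x, igr k t

/-- its real part -/
noncomputable def Rg (k : ℕ) (x : ℝ) : ℝ := (tailk k x).re

lemma restk_eq (k : ℕ) (x : ℝ) : restk k x = cube k (Ioi 0) \ cube k (Ioo 0 x) := by
  ext t
  simp only [restk, cube, mem_sdiff, mem_univ_pi, mem_Ioi, mem_Ioo]
  constructor
  · rintro ⟨h1, j, h2⟩
    exact ⟨h1, fun h => absurd (h j).2 (not_lt.2 h2)⟩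
  · rintro ⟨h1, h2⟩
    push Not at h2
    obtain ⟨j, hj⟩ := h2
    exact ⟨h1, j, hj (h1 j)⟩

lemma tailk_pos {k : ℕ} (hk : 2 ≤ k) {x : ℝ} (hx : 0 < x) : tailk k x = (Rk k x : ℂ) := by
  have h : tailk k x = NI k (cube k (Ioi 0) \ cube k (Ioo 0 x)) := by
    rw [tailk, restk_eq]
    rfl
  rw [h, NI_diff, NI_full hk, NI_box hk hx, Rk]
  push_cast
  rfl

lemma restk_zero {k : ℕ} (hk : 2 ≤ k) : restk k 0 = cube k (Ioi 0) := by
  ext t
  simp only [restk, cube, mem_univ_pi, mem_Ioi]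
  exact ⟨fun h => h.1, fun h => ⟨h, ⟨0, by omega⟩, (h _).le⟩⟩

lemma tailk_zero {k : ℕ} (hk : 2 ≤ k) : tailk k 0 = (zt k : ℂ) := by
  have h : tailk k 0 = NI k (cube k (Ioi 0)) := by
    rw [tailk, restk_zero hk]
    rfl
  rw [h, NI_full hk]

lemma Rg_pos {k : ℕ} (hk : 2 ≤ k) {x : ℝ} (hx : 0 < x) : Rg k x = Rk k x := by
  rw [Rg, tailk_pos hk hx, Complex.ofReal_re]

lemma Rg_zero {k : ℕ} (hk : 2 ≤ k) : Rg k 0 = zt k := by
  rw [Rg, tailk_zero hk, Complex.ofReal_re]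

lemma tailk_real {k : ℕ} (hk : 2 ≤ k) {x : ℝ} (hx : 0 ≤ x) : tailk k x = (Rg k x : ℂ) := by
  rcases hx.eq_or_lt with rfl | hx
  · rw [Rg_zero hk, tailk_zero hk]
  · rw [Rg_pos hk hx, tailk_pos hk hx]

/-- the joint measures for the numbers `e^s R_k(x)` -/
theorem joint_Rg {k : ℕ} (hk : 2 ≤ k) {n : ℕ} (x s : Fin n → ℚ) (hx : ∀ i, 0 ≤ x i)
    (h : ∀ i j, i ≠ j → x i = x j → s i ≠ s j ∧ Rg k (x i) ≠ 0) (i j : Fin n) (hij : i ≠ j) :
    JointR (Real.exp (s i) * Rg k (x i)) (Real.exp (s j) * Rg k (x j)) := by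
  classical
  obtain ⟨b, hb⟩ : ∃ b : Fin n → Option ℚ × ℚ, ∀ i, b i = (if x i = 0 then none else some (x i), s i) :=
    ⟨_, fun i => rfl⟩
  have hinj : Function.Injective b := by
    intro i j hbij
    by_contra hij
    rw [hb, hb, Prod.mk.injEq] at hbij
    obtain ⟨h1, h2⟩ := hbij
    have h3 : x i = x j := by
      split_ifs at h1 with ha hc hc
      · rw [ha, hc]
      · exact Option.some.inj h1
    exact (h i j hij h3).1 h2
  have hsome : ∀ i y, (b i).1 = some y → y = x i ∧ x i ≠ 0 := by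
    intro i y hy
    rw [hb] at hy
    simp only at hy
    split_ifs at hy with ha
    exact ⟨(Option.some.inj hy).symm, ha⟩
  have hval : ∀ i, fz k (b i) = Real.exp (s i) * Rg k (x i) := by
    intro i
    rw [hb, fz]
    simp only
    split_ifs with ha
    · rw [ha, Rat.cast_zero, Rg_zero hk]
      rfl
    · have h1 : 0 < x i := lt_of_le_of_ne (hx i) (Ne.symm ha)
      have h2 : (0 : ℝ) < x i := by exact_mod_cast h1
      rw [Rg_pos hk h2]
      rfl
  rw [← hval, ← hval]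
  refine joint_fz k hk b hinj ?_ ?_ i j hij
  · intro i y hy
    obtain ⟨h1, h2⟩ := hsome i y hy
    rw [h1]
    exact lt_of_le_of_ne (hx i) (Ne.symm h2)
  · intro i i' y hii hy hy'
    obtain ⟨h1, h2⟩ := hsome i y hy
    obtain ⟨h3, -⟩ := hsome i' y hy'
    have h4 := (h i i' hii (by rw [← h1, ← h3])).2
    have h5 : (0 : ℝ) < x i := by exact_mod_cast lt_of_le_of_ne (hx i) (Ne.symm h2)
    rw [h1, ← Rg_pos hk h5]
    exact h4

end Pool.Agent.U456.IZ
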