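import Pool.Agent.U456.IZ.Graph

/-!
# Odd tails over the field of the even tails and of finitely many odd indices
-/

set_option autoImplicit false

open Set

namespace Pool.Agent.U456.IZ

open Pool.Agent.R352.E Pool.Agent.R352.Q Pool.Agent.N743.SS Pool.Agent.Q163.LE

section

variable {F : Subfield ℝ}

/-- the numbers `R_j(y)`, `j` even or `j ∈ O`, `y ≥ 0` -/
def baseT (O : Finset ℕ) : Set ℝ :=
  {w | ∃ j : ℕ, (Even j ∨ j ∈ O) ∧ 2 ≤ j ∧ ∃ y : ℚ, 0 ≤ y ∧ w = Tl j y}

/-- numbers `R_m(x)`, `m` odd, `m ∉ O`, algebraic over the field of the tails with `j` even or `j ∈ O` -/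
theorem base_law (hF : SimLiouville F) (O : Finset ℕ) (V : Finset (ℕ × ℚ))
    (hV : ∀ p ∈ V, 3 ≤ p.1 ∧ Odd p.1 ∧ p.1 ∉ O ∧ 0 ≤ p.2 ∧
      Tl p.1 p.2 ∈ (MF F).closure (insert (Real.exp 1) (baseT O))) :
    V.card ≤ (V.image Prod.fst).card + O.card + 1 := by
  classical
  -- finitely many even tails
  have h1 : (V.image fun p => Tl p.1 p.2 : Set ℝ) ⊆ (MF F).closure (insert (Real.exp 1) (baseT O)) := by
    intro z hz
    obtain ⟨p, hp, rfl⟩ := Finset.mem_image.1 (Finset.mem_coe.1 hz)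
    exact (hV p hp).2.2.2.2
  obtain ⟨I, hI, hIfin, -, hVI⟩ :=
    Matroid.exists_subset_finite_closure_of_subset_closure (Finset.finite_toSet _) h1
  have hg : ∀ w : ℝ, ∃ q : ℕ × ℚ, w ∈ (baseT O) → (Even q.1 ∨ q.1 ∈ O) ∧ 2 ≤ q.1 ∧ 0 ≤ q.2 ∧ w = Tl q.1 q.2 := by
    intro w
    by_cases hw : w ∈ (baseT O)
    · obtain ⟨j, hj, hj2, y, hy, h⟩ := hw
      exact ⟨(j, y), fun _ => ⟨hj, hj2, hy, h⟩⟩
    · exact ⟨(0, 0), fun h => absurd h hw⟩
  choose g hg using hg
  obtain ⟨W, hW⟩ : ∃ W : Finset (ℕ × ℚ), W = (hIfin.toFinset.filter (· ∈ (baseT O))).image g :=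
    ⟨_, rfl⟩
  have hWs : ∀ q ∈ W, (Even q.1 ∨ q.1 ∈ O) ∧ 2 ≤ q.1 ∧ 0 ≤ q.2 := by
    intro q hq
    rw [hW] at hq
    obtain ⟨w, hw, rfl⟩ := Finset.mem_image.1 hq
    have h2 := hg w (Finset.mem_filter.1 hw).2
    exact ⟨h2.1, h2.2.1, h2.2.2.1⟩
  obtain ⟨W', hW'⟩ : ∃ W' : Finset (ℕ × ℚ), W' = W.filter fun q => q.2 ≠ 0 := ⟨_, rfl⟩
  obtain ⟨J, hJ⟩ : ∃ J : Finset ℕ, J = W.image Prod.fst := ⟨_, rfl⟩
  obtain ⟨Z, hZ⟩ : ∃ Z : Finset (ℕ × ℚ), Z = J.image fun j => (j, (0 : ℚ)) := ⟨_, rfl⟩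
  obtain ⟨B, hB⟩ : ∃ B : Finset ℝ, B = insert Real.pi ((W'.image fun q => Tl q.1 q.2) ∪ O.image fun j => Tl j 0) := ⟨_, rfl⟩
  have hJs : ∀ j ∈ J, (Even j ∨ j ∈ O) ∧ 2 ≤ j := by
    intro j hj
    rw [hJ] at hj
    obtain ⟨q, hq, rfl⟩ := Finset.mem_image.1 hj
    exact ⟨(hWs q hq).1, (hWs q hq).2.1⟩
  -- closures
  have cW' : ∀ q ∈ W', Tl q.1 q.2 ∈ (MF F).closure (insert (Real.exp 1) (B : Set ℝ)) := by
    intro q hq
    refine self_clE (mem_insert_of_mem _ ?_)
    rw [Finset.mem_coe, hB]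
    exact Finset.mem_insert_of_mem (Finset.mem_union_left _ (Finset.mem_image_of_mem _ hq))
  have cpi : Real.pi ∈ (MF F).closure (insert (Real.exp 1) (B : Set ℝ)) := by
    refine self_clE (mem_insert_of_mem _ ?_)
    rw [Finset.mem_coe, hB]
    exact Finset.mem_insert_self _ _
  have cZ : ∀ j, (Even j ∨ j ∈ O) → 2 ≤ j →
      Tl j 0 ∈ (MF F).closure (insert (Real.exp 1) (B : Set ℝ)) := by
    intro j hj hj2
    rcases hj with hj | hj
    swap
    · refine self_clE (mem_insert_of_mem _ ?_)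
      rw [Finset.mem_coe, hB]
      exact Finset.mem_insert_of_mem (Finset.mem_union_right _
        (Finset.mem_image_of_mem (fun j => Tl j 0) hj))
    obtain ⟨i, hi⟩ := hj
    have hji : j = 2 * i := by omega
    obtain ⟨q, hq⟩ := zt_even (n := i) (by omega)
    rw [Tl, if_pos rfl, hji, hq]
    exact mul_clE (rat_clE q) (pow_clE cpi _)
  have cI : I ⊆ (MF F).closure (insert (Real.exp 1) (B : Set ℝ)) := by
    intro w hw
    rcases hI hw with rfl | hwE
    · exact self_clE (mem_insert _ _)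
    · have h2 := hg w hwE
      have h3 : g w ∈ W := by
        rw [hW]
        exact Finset.mem_image_of_mem _ (Finset.mem_filter.2 ⟨hIfin.mem_toFinset.2 hw, hwE⟩)
      rw [h2.2.2.2]
      by_cases h0 : (g w).2 = 0
      · rw [h0]
        exact cZ _ h2.1 h2.2.1
      · refine cW' (g w) ?_
        rw [hW']
        exact Finset.mem_filter.2 ⟨h3, h0⟩
  have cV : ∀ p ∈ V, Tl p.1 p.2 ∈ (MF F).closure (insert (Real.exp 1) (B : Set ℝ)) := by
    intro p hp
    have h2 := hVI (Finset.mem_coe.2 (Finset.mem_image_of_mem (fun p => Tl p.1 p.2) hp))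
    have h3 := (MF F).closure_subset_closure cI h2
    rwa [Matroid.closure_closure] at h3
  -- counting
  have key := diff_bound hF (V ∪ (W' ∪ Z)) (by
    intro p hp
    rcases Finset.mem_union.1 hp with hp | hp
    · have h2 := hV p hp
      exact ⟨by omega, h2.2.2.2.1⟩
    rcases Finset.mem_union.1 hp with hp | hp
    · rw [hW'] at hp
      have h2 := hWs p (Finset.mem_filter.1 hp).1
      exact ⟨h2.2.1, h2.2.2⟩
    · rw [hZ] at hp
      obtain ⟨j, hj, rfl⟩ := Finset.mem_image.1 hp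
      exact ⟨(hJs j hj).2, le_rfl⟩) B (by
    intro p hp
    rcases Finset.mem_union.1 hp with hp | hp
    · exact cV p hp
    rcases Finset.mem_union.1 hp with hp | hp
    · exact cW' p hp
    · rw [hZ] at hp
      obtain ⟨j, hj, rfl⟩ := Finset.mem_image.1 hp
      exact cZ j (hJs j hj).1 (hJs j hj).2)
  have hd1 : Disjoint W' Z := by
    rw [Finset.disjoint_left]
    intro p hp hq
    rw [hW'] at hp
    rw [hZ] at hq
    obtain ⟨j, hj, rfl⟩ := Finset.mem_image.1 hq
    exact (Finset.mem_filter.1 hp).2 rfl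
  have hev : ∀ p ∈ W' ∪ Z, Even p.1 ∨ p.1 ∈ O := by
    intro p hp
    rcases Finset.mem_union.1 hp with hp | hp
    · rw [hW'] at hp
      exact (hWs p (Finset.mem_filter.1 hp).1).1
    · rw [hZ] at hp
      obtain ⟨j, hj, rfl⟩ := Finset.mem_image.1 hp
      exact (hJs j hj).1
  have hd2 : Disjoint V (W' ∪ Z) := by
    rw [Finset.disjoint_left]
    intro p hp hq
    rcases hev p hq with h | h
    · exact (Nat.not_odd_iff_even.2 h) (hV p hp).2.1
    · exact (hV p hp).2.2.1 h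
  have hZc : Z.card = J.card := by
    rw [hZ]
    refine Finset.card_image_of_injective _ ?_
    intro a b hab
    exact (Prod.mk.inj hab).1
  have hBc : B.card ≤ W'.card + O.card + 1 := by
    rw [hB]
    refine (Finset.card_insert_le _ _).trans (Nat.add_le_add_right ?_ 1)
    exact (Finset.card_union_le _ _).trans (Nat.add_le_add Finset.card_image_le
      Finset.card_image_le)
  have him : ((V ∪ (W' ∪ Z)).image Prod.fst).card ≤ (V.image Prod.fst).card + J.card := by
    refine le_trans (Finset.card_le_card (t := V.image Prod.fst ∪ J) ?_) (Finset.card_union_le _ _)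
    intro k hk
    obtain ⟨p, hp, rfl⟩ := Finset.mem_image.1 hk
    rcases Finset.mem_union.1 hp with hp | hp
    · exact Finset.mem_union_left _ (Finset.mem_image_of_mem _ hp)
    refine Finset.mem_union_right _ ?_
    rcases Finset.mem_union.1 hp with hp | hp
    · rw [hW'] at hp
      rw [hJ]
      exact Finset.mem_image_of_mem _ (Finset.mem_filter.1 hp).1
    · rw [hZ] at hp
      obtain ⟨j, hj, rfl⟩ := Finset.mem_image.1 hp
      exact hj
  rw [Finset.card_union_of_disjoint hd2, Finset.card_union_of_disjoint hd1, hZc] at key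
  omega

/-- **One odd index.** -/
theorem base_law_one (hF : SimLiouville F) (O : Finset ℕ) {n : ℕ}
    (hn : 3 ≤ n) (hodd : Odd n) (hnO : n ∉ O) :
    {x : ℚ | 0 ≤ x ∧ Tl n x ∈ (MF F).closure (insert (Real.exp 1) (baseT O))}.encard ≤
      (O.card + 2 : ℕ) := by
  classical
  by_contra hcon
  rw [not_le] at hcon
  have hcon' : ((O.card + 2 + 1 : ℕ) : ℕ∞) ≤
      {x : ℚ | 0 ≤ x ∧ Tl n x ∈ (MF F).closure (insert (Real.exp 1) (baseT O))}.encard := by
    push_cast
    push_cast at hcon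
    exact Order.add_one_le_of_lt hcon
  obtain ⟨t, ht, htc⟩ := Set.exists_subset_encard_eq hcon'
  have hfin : t.Finite := by
    rw [← Set.encard_lt_top_iff, htc]
    exact ENat.natCast_lt_top _
  obtain ⟨X, rfl⟩ : ∃ X : Finset ℚ, (X : Set ℚ) = t := ⟨hfin.toFinset, hfin.coe_toFinset⟩
  rw [Set.encard_coe_eq_coe_finsetCard] at htc
  have hc : X.card = O.card + 2 + 1 := by exact_mod_cast htc
  have h4 := base_law hF O (X.image fun x => (n, x)) (by
    intro p hp
    obtain ⟨x, hx, rfl⟩ := Finset.mem_image.1 hp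
    have h := ht (Finset.mem_coe.2 hx)
    exact ⟨hn, hodd, hnO, h.1, h.2⟩)
  have h5 : ((X.image fun x => (n, x)).image Prod.fst).card ≤ 1 := by
    refine (Finset.card_le_card (t := {n}) ?_).trans (Finset.card_singleton n).le
    intro k hk
    obtain ⟨p, hp, rfl⟩ := Finset.mem_image.1 hk
    obtain ⟨x, hx, rfl⟩ := Finset.mem_image.1 hp
    exact Finset.mem_singleton_self _
  have h6 : (X.image fun x => (n, x)).card = X.card := by
    refine Finset.card_image_of_injective _ ?_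
    intro u v huv
    exact (Prod.mk.inj huv).2
  omega

end

end Pool.Agent.U456.IZ
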