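import Pool.Agent.U456.IZ.Few

/-!
# Ratios of tails
-/

set_option autoImplicit false

open Set

namespace Pool.Agent.U456.IZ

open Pool.Agent.R352.E Pool.Agent.R352.Q Pool.Agent.N743.SS Pool.Agent.Q163.LE

section

variable {F : Subfield ℝ}

lemma zt_summable {k : ℕ} (hk : 2 ≤ k) : Summable fun n : ℕ => 1 / ((n : ℝ) + 1) ^ k := by
  have h := (summable_nat_add_iff 1).2 (Real.summable_one_div_nat_pow.2 (show 1 < k by omega))
  simpa using h

lemma zt_pos' {k : ℕ} (hk : 2 ≤ k) : 0 < zt k := by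
  rw [zt]
  have h1 : ∀ n : ℕ, 0 ≤ 1 / ((n : ℝ) + 1) ^ k := fun n => by positivity
  exact (zt_summable hk).tsum_pos h1 0 (by positivity)

lemma zt_even {n : ℕ} (hn : n ≠ 0) : ∃ q : ℚ, zt (2 * n) = (q : ℝ) * Real.pi ^ (2 * n) := by
  have h := hasSum_zeta_nat hn
  have h1 := (hasSum_nat_add_iff' 1).2 h
  have h3 := h1.tsum_eq
  refine ⟨(-1) ^ (n + 1) * 2 ^ (2 * n - 1) * bernoulli (2 * n) / (2 * n).factorial, ?_⟩
  rw [zt]
  have hz : ((0 : ℕ) : ℝ) ^ (2 * n) = 0 := by
    rw [Nat.cast_zero]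
    exact zero_pow (by omega)
  simp only [Nat.cast_add, Nat.cast_one, Finset.range_one, Finset.sum_singleton, hz, div_zero,
    sub_zero] at h3
  rw [h3]
  push_cast
  ring

/-! ### squares over powers -/

/-- `R_n(x)^2 / R_2(x)^n` -/
noncomputable def qA (N : Finset ℕ) (x : ℚ) (n : N) : ℝ := Tl n x ^ 2 / Tl 2 x ^ (n : ℕ)

lemma qA_dep (N : Finset ℕ) (hN : ∀ n ∈ N, 3 ≤ n) (x : ℚ)
    (h : ¬ AlgebraicIndependent F (Sum.elim (qA N x) (fun _ : Unit => Real.exp 1))) :
    ¬ AlgebraicIndependent F (tup (insert 2 N) x) := by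
  intro hai
  apply h
  have h2N : 2 ∉ N := fun hc => by have := hN 2 hc; omega
  obtain ⟨y, hy⟩ : ∃ y : Option N ⊕ Unit → ℝ,
      y = Sum.elim (fun o => o.elim (Tl 2 x) (qA N x)) (fun _ => Real.exp 1) := ⟨_, rfl⟩
  have h2 : Tl 2 x ≠ 0 := hai.ne_zero (Sum.inl ⟨2, Finset.mem_insert_self _ _⟩)
  have m2 : Tl 2 x ∈ (MF F).closure (range y) := self_clE ⟨Sum.inl none, by rw [hy]; rfl⟩
  have h1 := card_le_rk hai (T := range y) (by
    rintro (⟨k, hk⟩ | _)
    · show Tl k x ∈ _
      rcases Finset.mem_insert.1 hk with rfl | hk'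
      · exact m2
      · refine of_pow_clE (n := 2) (by norm_num) ?_
        have h3 : Tl k x ^ 2 = qA N x ⟨k, hk'⟩ * Tl 2 x ^ k := by
          rw [qA]
          exact (div_mul_cancel₀ _ (pow_ne_zero _ h2)).symm
        rw [h3]
        exact mul_clE (self_clE ⟨Sum.inl (some ⟨k, hk'⟩), by rw [hy]; rfl⟩) (pow_clE m2 k)
    · exact self_clE ⟨Sum.inr (), by rw [hy]; rfl⟩)
  have hcard : Fintype.card (↥(insert 2 N : Finset ℕ) ⊕ Unit) = Fintype.card (Option N ⊕ Unit) := by
    rw [Fintype.card_sum, Fintype.card_sum, Fintype.card_coe, Fintype.card_option,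
      Fintype.card_coe, Finset.card_insert_of_notMem h2N]
  rw [hcard] at h1
  have h4 := (ai_of_rank h1).comp (Sum.map some id : N ⊕ Unit → Option N ⊕ Unit)
    (Function.Injective.sumMap (Option.some_injective _) Function.injective_id)
  convert h4 using 1
  funext o
  rw [hy]
  rcases o with o | o <;> rfl

theorem qA_main (hF : SimLiouville F) (N : Finset ℕ) (hN : ∀ n ∈ N, 3 ≤ n) :
    {x : ℚ | 0 ≤ x ∧ ¬ AlgebraicIndependent (Algebra.adjoin F ({Real.exp 1} : Set ℝ))
      (qA N x)}.encard ≤ (N.card + 1 : ℕ) := by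
  classical
  have h2N : 2 ∉ N := fun hc => by have := hN 2 hc; omega
  refine encard_exceptions hF (insert 2 N) (fun k hk => ?_) N.card
    (fun x => ¬ AlgebraicIndependent (Algebra.adjoin F ({Real.exp 1} : Set ℝ)) (qA N x))
    (fun x _ h => qA_dep N hN x (fun hc => h ((fam_iff hF _).2 hc))) ?_ ?_
  · rcases Finset.mem_insert.1 hk with rfl | hk'
    · exact le_rfl
    · have := hN k hk'
      omega
  · refine ⟨(insert 2 N).image fun k => Tl k 0, ?_, fun k hk => self_clE ?_⟩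
    · refine Finset.card_image_le.trans ?_
      rw [Finset.card_insert_of_notMem h2N]
    · refine mem_insert_of_mem _ ?_
      rw [Finset.mem_coe]
      exact Finset.mem_image_of_mem _ hk
  · intro h
    obtain ⟨B, hB1, hB2⟩ := small_gen' hF (qA N 0) (fun hc => h ((fam_iff hF _).2 hc))
    rw [Fintype.card_coe] at hB1
    refine ⟨insert (Tl 2 0) B, (Finset.card_insert_le _ _).trans hB1, ?_⟩
    have hsub : insert (Real.exp 1) (B : Set ℝ) ⊆
        insert (Real.exp 1) ((insert (Tl 2 0) B : Finset ℝ) : Set ℝ) := by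
      refine insert_subset_insert ?_
      rw [Finset.coe_insert]
      exact subset_insert _ _
    have m2 : Tl 2 0 ∈ (MF F).closure
        (insert (Real.exp 1) ((insert (Tl 2 0) B : Finset ℝ) : Set ℝ)) := self_clE (by simp)
    intro k hk
    rcases Finset.mem_insert.1 hk with rfl | hk'
    · exact m2
    · refine of_pow_clE (n := 2) (by norm_num) ?_
      have h2 : Tl 2 0 ≠ 0 := by
        rw [Tl, if_pos rfl]
        exact (zt_pos' le_rfl).ne'
      have h3 : Tl k 0 ^ 2 = qA N 0 ⟨k, hk'⟩ * Tl 2 0 ^ k := by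
        rw [qA]
        exact (div_mul_cancel₀ _ (pow_ne_zero _ h2)).symm
      rw [h3]
      exact mul_clE (mono_clE hsub (hB2 ⟨k, hk'⟩)) (pow_clE m2 k)

/-! ### doubled arguments -/

/-- `R_{2n}(x) / R_n(x)^2` -/
noncomputable def qB (N : Finset ℕ) (x : ℚ) (n : N) : ℝ := Tl (2 * (n : ℕ)) x / Tl n x ^ 2

lemma qB_dep (N : Finset ℕ) (hN : ∀ n ∈ N, Odd n) (x : ℚ)
    (h : ¬ AlgebraicIndependent F (Sum.elim (qB N x) (fun _ : Unit => Real.exp 1))) :
    ¬ AlgebraicIndependent F (tup (N ∪ N.image fun n => 2 * n) x) := by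
  intro hai
  apply h
  obtain ⟨y, hy⟩ : ∃ y : (N ⊕ N) ⊕ Unit → ℝ,
      y = Sum.elim (Sum.elim (fun n : N => Tl (n : ℕ) x) (qB N x)) (fun _ : Unit => Real.exp 1) :=
    ⟨_, rfl⟩
  have hne : ∀ n : N, Tl n x ≠ 0 := fun n =>
    hai.ne_zero (Sum.inl ⟨n, Finset.mem_union_left _ n.2⟩)
  have m1 : ∀ n : N, Tl n x ∈ (MF F).closure (range y) := fun n =>
    self_clE ⟨Sum.inl (Sum.inl n), by rw [hy]; rfl⟩
  have h1 := card_le_rk hai (T := range y) (by
    rintro (⟨k, hk⟩ | _)
    · show Tl k x ∈ _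
      rcases Finset.mem_union.1 hk with hk' | hk'
      · exact m1 ⟨k, hk'⟩
      · obtain ⟨n, hn, rfl⟩ := Finset.mem_image.1 hk'
        have h3 : Tl (2 * n) x = qB N x ⟨n, hn⟩ * Tl n x ^ 2 := by
          rw [qB]
          exact (div_mul_cancel₀ _ (pow_ne_zero _ (hne ⟨n, hn⟩))).symm
        rw [h3]
        exact mul_clE (self_clE ⟨Sum.inl (Sum.inr ⟨n, hn⟩), by rw [hy]; rfl⟩)
          (pow_clE (m1 ⟨n, hn⟩) 2)
    · exact self_clE ⟨Sum.inr (), by rw [hy]; rfl⟩)
  have hdisj : Disjoint N (N.image fun n => 2 * n) := by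
    rw [Finset.disjoint_left]
    intro a ha hb
    obtain ⟨n, _, rfl⟩ := Finset.mem_image.1 hb
    have := hN _ ha
    rw [Nat.odd_iff] at this
    omega
  have hinj : Function.Injective fun n : ℕ => 2 * n := fun a b hab => by
    have : 2 * a = 2 * b := hab
    omega
  have hcard : Fintype.card (↥(N ∪ N.image fun n => 2 * n : Finset ℕ) ⊕ Unit) =
      Fintype.card ((N ⊕ N) ⊕ Unit) := by
    rw [Fintype.card_sum, Fintype.card_sum, Fintype.card_sum, Fintype.card_coe, Fintype.card_coe,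
      Finset.card_union_of_disjoint hdisj, Finset.card_image_of_injective _ hinj]
  rw [hcard] at h1
  have h4 := (ai_of_rank h1).comp (Sum.map Sum.inr id : N ⊕ Unit → (N ⊕ N) ⊕ Unit)
    (Function.Injective.sumMap Sum.inr_injective Function.injective_id)
  convert h4 using 1
  funext o
  rw [hy]
  rcases o with o | o <;> rfl

theorem qB_main (hF : SimLiouville F) (N : Finset ℕ) (hN : ∀ n ∈ N, Odd n ∧ 2 ≤ n) :
    {x : ℚ | 0 ≤ x ∧ ¬ AlgebraicIndependent (Algebra.adjoin F ({Real.exp 1} : Set ℝ))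
      (qB N x)}.encard ≤ (N.card + 1 : ℕ) := by
  classical
  have even_cl : ∀ (T : Set ℝ), Real.pi ∈ (MF F).closure T → ∀ n ∈ N,
      Tl (2 * n) 0 ∈ (MF F).closure T := by
    intro T hT n hn
    rw [Tl, if_pos rfl]
    obtain ⟨q, hq⟩ := zt_even (n := n) (by have := (hN n hn).2; omega)
    rw [hq]
    exact mul_clE (rat_clE q) (pow_clE hT _)
  refine encard_exceptions hF (N ∪ N.image fun n => 2 * n) (fun k hk => ?_) N.card
    (fun x => ¬ AlgebraicIndependent (Algebra.adjoin F ({Real.exp 1} : Set ℝ)) (qB N x))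
    (fun x _ h => qB_dep N (fun n hn => (hN n hn).1) x (fun hc => h ((fam_iff hF _).2 hc))) ?_ ?_
  · rcases Finset.mem_union.1 hk with hk' | hk'
    · exact (hN k hk').2
    · obtain ⟨n, hn, rfl⟩ := Finset.mem_image.1 hk'
      have := (hN n hn).2
      omega
  · refine ⟨insert Real.pi (N.image fun k => Tl k 0), ?_, fun k hk => ?_⟩
    · refine (Finset.card_insert_le _ _).trans ?_
      exact Nat.add_le_add_right Finset.card_image_le 1
    · rcases Finset.mem_union.1 hk with hk' | hk'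
      · refine self_clE (mem_insert_of_mem _ ?_)
        rw [Finset.mem_coe]
        exact Finset.mem_insert_of_mem (Finset.mem_image_of_mem _ hk')
      · obtain ⟨n, hn, rfl⟩ := Finset.mem_image.1 hk'
        refine even_cl _ (self_clE ?_) n hn
        simp
  · intro h
    obtain ⟨B, hB1, hB2⟩ := small_gen' hF (qB N 0) (fun hc => h ((fam_iff hF _).2 hc))
    rw [Fintype.card_coe] at hB1
    refine ⟨insert Real.pi B, (Finset.card_insert_le _ _).trans hB1, ?_⟩
    have hsub : insert (Real.exp 1) (B : Set ℝ) ⊆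
        insert (Real.exp 1) ((insert Real.pi B : Finset ℝ) : Set ℝ) := by
      refine insert_subset_insert ?_
      rw [Finset.coe_insert]
      exact subset_insert _ _
    have mp : Real.pi ∈ (MF F).closure
        (insert (Real.exp 1) ((insert Real.pi B : Finset ℝ) : Set ℝ)) := self_clE (by simp)
    intro k hk
    rcases Finset.mem_union.1 hk with hk' | hk'
    · refine of_pow_clE (n := 2) (by norm_num) ?_
      have hk2 := (hN k hk').2
      have e0 : Tl k 0 = zt k := by rw [Tl, if_pos rfl]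
      have e1 : Tl (2 * k) 0 = zt (2 * k) := by rw [Tl, if_pos rfl]
      have p0 : Tl k 0 ≠ 0 := by
        rw [e0]
        exact (zt_pos' hk2).ne'
      have p1 : Tl (2 * k) 0 ≠ 0 := by
        rw [e1]
        exact (zt_pos' (by omega)).ne'
      have h3 : Tl k 0 ^ 2 = Tl (2 * k) 0 * (qB N 0 ⟨k, hk'⟩)⁻¹ := by
        rw [qB]
        field_simp
      rw [h3]
      exact mul_clE (even_cl _ mp k hk') (inv_clE (mono_clE hsub (hB2 ⟨k, hk'⟩)))
    · obtain ⟨n, hn, rfl⟩ := Finset.mem_image.1 hk'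
      exact even_cl _ mp n hn

end

end Pool.Agent.U456.IZ
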