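import Pool.Agent.U456.IZ.Few
import Pool.Agent.U456.IZ.Ratio

/-!
# Counting tails in the closure of a finite set
-/

set_option autoImplicit false

open Set

namespace Pool.Agent.U456.IZ

open Pool.Agent.R352.E Pool.Agent.R352.Q Pool.Agent.N743.SS Pool.Agent.Q163.LE

section

variable {F : Subfield ℝ}

/-- numbers `R_k(x)`, `(k, x) ∈ V`, algebraic over `F(e, B)` -/
theorem diff_bound (hF : SimLiouville F) (V : Finset (ℕ × ℚ)) (hV : ∀ p ∈ V, 2 ≤ p.1 ∧ 0 ≤ p.2)
    (B : Finset ℝ)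
    (hB : ∀ p ∈ V, Tl p.1 p.2 ∈ (MF F).closure (insert (Real.exp 1) (B : Set ℝ))) :
    V.card ≤ B.card + (V.image Prod.fst).card := by
  classical
  obtain ⟨V', hV'⟩ : ∃ V' : Finset (ℕ × ℚ), V' = V.filter fun p => p.2 ≠ 0 := ⟨_, rfl⟩
  obtain ⟨V0, hV0⟩ : ∃ V0 : Finset (ℕ × ℚ), V0 = V.filter fun p => p.2 = 0 := ⟨_, rfl⟩
  obtain ⟨K0, hK0⟩ : ∃ K0 : Finset ℕ, K0 = V0.image Prod.fst := ⟨_, rfl⟩
  obtain ⟨K1, hK1⟩ : ∃ K1 : Finset ℕ, K1 = V.image Prod.fst \ K0 := ⟨_, rfl⟩
  obtain ⟨T, hT⟩ : ∃ T : Finset ℝ, T = K1.image fun k => Tl k 0 := ⟨_, rfl⟩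
  obtain ⟨U, hU⟩ : ∃ U : Finset ℝ, U = insert (Real.exp 1) (B ∪ T) := ⟨_, rfl⟩
  have hsub : insert (Real.exp 1) (B : Set ℝ) ⊆ (U : Set ℝ) := by
    rw [hU, Finset.coe_insert]
    refine insert_subset_insert ?_
    rw [Finset.coe_union]
    exact subset_union_left
  have hcl0 : ∀ p ∈ V, Tl p.1 0 ∈ (MF F).closure (U : Set ℝ) := by
    intro p hp
    by_cases h : p.1 ∈ K0
    · rw [hK0, hV0] at h
      obtain ⟨q, hq, hqp⟩ := Finset.mem_image.1 h
      obtain ⟨hq1, hq2⟩ := Finset.mem_filter.1 hq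
      have h1 := hB q hq1
      rw [hq2, hqp] at h1
      exact mono_clE hsub h1
    · refine self_clE ?_
      rw [Finset.mem_coe, hU, hT]
      refine Finset.mem_insert_of_mem (Finset.mem_union_right _
        (Finset.mem_image_of_mem _ ?_))
      rw [hK1]
      exact Finset.mem_sdiff.2 ⟨Finset.mem_image_of_mem _ hp, h⟩
  have hmV' : ∀ p ∈ V', 2 ≤ p.1 ∧ 0 < p.2 := by
    intro p h1
    rw [hV'] at h1
    obtain ⟨h2, h3⟩ := Finset.mem_filter.1 h1
    exact ⟨(hV _ h2).1, lt_of_le_of_ne (hV _ h2).2 (Ne.symm h3)⟩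
  let f : Option V' → Option {p : ℕ × ℚ // 2 ≤ p.1 ∧ 0 < p.2} :=
    Option.map fun p => ⟨p.1, hmV' _ p.2⟩
  have hf : Function.Injective f := by
    refine Option.map_injective ?_
    intro a b hab
    simp only [Subtype.mk.injEq] at hab
    exact Subtype.ext hab
  have hai := (ai_Z hF).comp f hf
  have hcard := card_le_finset hai (T := U) (by
    rintro (_ | ⟨p, hp⟩)
    · refine self_clE ?_
      rw [Finset.mem_coe, hU]
      exact Finset.mem_insert_self _ _
    · show Zk p.1 p.2 ∈ _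
      rw [hV'] at hp
      obtain ⟨h2, h3⟩ := Finset.mem_filter.1 hp
      rw [Tl_sub p.1 h3]
      exact sub_clE (hcl0 p h2) (mono_clE hsub (hB p h2)))
  rw [Fintype.card_option, Fintype.card_coe] at hcard
  have hU1 : U.card ≤ B.card + K1.card + 1 := by
    rw [hU]
    refine (Finset.card_insert_le _ _).trans (Nat.add_le_add_right ?_ 1)
    refine (Finset.card_union_le _ _).trans (Nat.add_le_add_left ?_ _)
    rw [hT]
    exact Finset.card_image_le
  have hV1 : V0.card + V'.card = V.card := by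
    rw [hV0, hV']
    exact Finset.card_filter_add_card_filter_not (fun p : ℕ × ℚ => p.2 = 0)
  have hK2 : K0.card = V0.card := by
    rw [hK0]
    refine Finset.card_image_of_injOn ?_
    intro p hp q hq hpq
    rw [hV0] at hp hq
    have h1 := (Finset.mem_filter.1 (Finset.mem_coe.1 hp)).2
    have h2 := (Finset.mem_filter.1 (Finset.mem_coe.1 hq)).2
    exact Prod.ext hpq (h1.trans h2.symm)
  have hK3 : K1.card + K0.card = (V.image Prod.fst).card := by
    rw [hK1]
    refine Finset.card_sdiff_add_card_eq_card ?_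
    rw [hK0]
    refine Finset.image_subset_image ?_
    rw [hV0]
    exact Finset.filter_subset _ _
  omega

/-- two rows -/
theorem bip_bound (hF : SimLiouville F) {m n : ℕ} (hm : 2 ≤ m) (hn : 2 ≤ n) (hmn : m ≠ n)
    (X Y : Finset ℚ) (hX : ∀ x ∈ X, 0 ≤ x) (hY : ∀ y ∈ Y, 0 ≤ y) (B : Finset ℝ)
    (h1 : ∀ x ∈ X, Tl m x ∈ (MF F).closure (insert (Real.exp 1) (B : Set ℝ)))
    (h2 : ∀ y ∈ Y, Tl n y ∈ (MF F).closure (insert (Real.exp 1) (B : Set ℝ))) :
    X.card + Y.card ≤ B.card + 2 := by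
  classical
  obtain ⟨V, hV⟩ : ∃ V : Finset (ℕ × ℚ), V = X.image (fun x => (m, x)) ∪ Y.image (fun y => (n, y)) :=
    ⟨_, rfl⟩
  have key := diff_bound hF V (by
    intro p hp
    rw [hV] at hp
    rcases Finset.mem_union.1 hp with hp | hp
    · obtain ⟨x, hx, rfl⟩ := Finset.mem_image.1 hp
      exact ⟨hm, hX x hx⟩
    · obtain ⟨x, hx, rfl⟩ := Finset.mem_image.1 hp
      exact ⟨hn, hY x hx⟩) B (by
    intro p hp
    rw [hV] at hp
    rcases Finset.mem_union.1 hp with hp | hp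
    · obtain ⟨x, hx, rfl⟩ := Finset.mem_image.1 hp
      exact h1 x hx
    · obtain ⟨x, hx, rfl⟩ := Finset.mem_image.1 hp
      exact h2 x hx)
  have hc : V.card = X.card + Y.card := by
    rw [hV, Finset.card_union_of_disjoint, Finset.card_image_of_injective,
      Finset.card_image_of_injective]
    · intro a b hab
      exact (Prod.mk.inj hab).2
    · intro a b hab
      exact (Prod.mk.inj hab).2
    · rw [Finset.disjoint_left]
      intro p hp hq
      obtain ⟨x, hx, rfl⟩ := Finset.mem_image.1 hp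
      obtain ⟨y, hy, h⟩ := Finset.mem_image.1 hq
      exact hmn (Prod.mk.inj h).1.symm
  have hi : (V.image Prod.fst).card ≤ 2 := by
    have h3 : V.image Prod.fst ⊆ {m, n} := by
      intro k hk
      obtain ⟨p, hp, rfl⟩ := Finset.mem_image.1 hk
      rw [hV] at hp
      rcases Finset.mem_union.1 hp with hp | hp
      · obtain ⟨x, hx, rfl⟩ := Finset.mem_image.1 hp
        simp
      · obtain ⟨x, hx, rfl⟩ := Finset.mem_image.1 hp
        simp
    exact (Finset.card_le_card h3).trans Finset.card_le_two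
  omega

/-- each of `R_m(x)` and `R_n(y)` is algebraic over the field generated by the other and `e` -/
def Lnk (F : Subfield ℝ) (m n : ℕ) (x y : ℚ) : Prop :=
  Tl m x ∈ (MF F).closure (insert (Real.exp 1) ({Tl n y} : Set ℝ)) ∧
    Tl n y ∈ (MF F).closure (insert (Real.exp 1) ({Tl m x} : Set ℝ))

lemma Lnk.symm {m n : ℕ} {x y : ℚ} (h : Lnk F m n x y) : Lnk F n m y x := ⟨h.2, h.1⟩

/-- transitivity of closures -/
lemma cl_trans {a b : ℝ} {S : Set ℝ} (h : a ∈ (MF F).closure (insert (Real.exp 1) ({b} : Set ℝ)))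
    (hb : b ∈ (MF F).closure (insert (Real.exp 1) S)) :
    a ∈ (MF F).closure (insert (Real.exp 1) S) := by
  have h1 : insert (Real.exp 1) ({b} : Set ℝ) ⊆ (MF F).closure (insert (Real.exp 1) S) := by
    rintro z (rfl | hz)
    · exact self_clE (mem_insert _ _)
    · rw [mem_singleton_iff.1 hz]
      exact hb
  have h2 := (MF F).closure_subset_closure h1 h
  rwa [Matroid.closure_closure] at h2

/-- at most two values of `x` -/
theorem star_bound (hF : SimLiouville F) {m n : ℕ} (hm : 2 ≤ m) (hn : 2 ≤ n) (hmn : m ≠ n)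
    (X : Finset ℚ) (y : ℚ → ℚ) (hX : ∀ x ∈ X, 0 ≤ x ∧ 0 ≤ y x ∧ Lnk F m n x (y x)) :
    X.card ≤ 2 := by
  classical
  have h1 := bip_bound hF hm hn hmn X (X.image y) (fun x hx => (hX x hx).1) (by
    intro z hz
    obtain ⟨x, hx, rfl⟩ := Finset.mem_image.1 hz
    exact (hX x hx).2.1) ((X.image y).image (Tl n)) (by
    intro x hx
    refine cl_trans (hX x hx).2.2.1 (self_clE (mem_insert_of_mem _ ?_))
    rw [Finset.mem_coe]
    exact Finset.mem_image_of_mem _ (Finset.mem_image_of_mem _ hx)) (by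
    intro z hz
    refine self_clE (mem_insert_of_mem _ ?_)
    rw [Finset.mem_coe]
    exact Finset.mem_image_of_mem _ hz)
  have h2 : ((X.image y).image (Tl n)).card ≤ (X.image y).card := Finset.card_image_le
  omega

/-- three pairs, two of them with the same `x` -/
lemma no_three_aux (hF : SimLiouville F) {m n : ℕ} (hm : 2 ≤ m) (hn : 2 ≤ n) (hmn : m ≠ n)
    {x y y' z w : ℚ} (hx : 0 ≤ x) (hy : 0 ≤ y) (hy' : 0 ≤ y') (hz : 0 ≤ z) (hw : 0 ≤ w)
    (hyy : y ≠ y') (h1 : Lnk F m n x y) (h2 : Lnk F m n x y') (h3 : Lnk F m n z w)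
    (hne : (z, w) ≠ (x, y)) (hne' : (z, w) ≠ (x, y')) : False := by
  classical
  by_cases hwy : w = y ∨ w = y'
  · -- `z ≠ x`
    have hzx : x ≠ z := by
      rintro rfl
      rcases hwy with rfl | rfl
      · exact hne rfl
      · exact hne' rfl
    have hX : ({x, z} : Finset ℚ).card = 2 := Finset.card_pair hzx
    have hY : ({y, y'} : Finset ℚ).card = 2 := Finset.card_pair hyy
    have hB : ({Tl m x} : Finset ℝ).card = 1 := Finset.card_singleton _
    have cy : Tl n y ∈ (MF F).closure (insert (Real.exp 1) (({Tl m x} : Finset ℝ) : Set ℝ)) := by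
      rw [Finset.coe_singleton]; exact h1.2
    have cy' : Tl n y' ∈ (MF F).closure (insert (Real.exp 1) (({Tl m x} : Finset ℝ) : Set ℝ)) := by
      rw [Finset.coe_singleton]; exact h2.2
    have h4 := bip_bound hF hm hn hmn {x, z} {y, y'} (by
      intro a ha
      rcases Finset.mem_insert.1 ha with rfl | ha
      · exact hx
      · rw [Finset.mem_singleton.1 ha]; exact hz) (by
      intro a ha
      rcases Finset.mem_insert.1 ha with rfl | ha
      · exact hy
      · rw [Finset.mem_singleton.1 ha]; exact hy') {Tl m x} (by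
      intro a ha
      rcases Finset.mem_insert.1 ha with rfl | ha
      · exact self_clE (by simp)
      · rw [Finset.mem_singleton.1 ha]
        refine cl_trans h3.1 ?_
        rcases hwy with rfl | rfl
        · exact cy
        · exact cy') (by
      intro a ha
      rcases Finset.mem_insert.1 ha with rfl | ha
      · exact cy
      · rw [Finset.mem_singleton.1 ha]
        exact cy')
    omega
  · push Not at hwy
    have h5 := star_bound hF hn hm hmn.symm {y, y', w} (fun a => if a = w then z else x) (by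
      intro a ha
      simp only [Finset.mem_insert, Finset.mem_singleton] at ha
      rcases ha with rfl | rfl | rfl
      · rw [if_neg hwy.1.symm]
        exact ⟨hy, hx, h1.symm⟩
      · rw [if_neg hwy.2.symm]
        exact ⟨hy', hx, h2.symm⟩
      · rw [if_pos rfl]
        exact ⟨hw, hz, h3.symm⟩)
    have h6 : ({y, y', w} : Finset ℚ).card = 3 := by
      rw [Finset.card_eq_three]
      exact ⟨y, y', w, hyy, hwy.1.symm, hwy.2.symm, rfl⟩
    omega

/-- **At most two pairs.** -/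
theorem two_pairs (hF : SimLiouville F) {m n : ℕ} (hm : 2 ≤ m) (hn : 2 ≤ n) (hmn : m ≠ n) :
    {p : ℚ × ℚ | 0 ≤ p.1 ∧ 0 ≤ p.2 ∧ Lnk F m n p.1 p.2}.encard ≤ 2 := by
  classical
  by_contra hcon
  rw [not_le] at hcon
  have hcon' : ((3 : ℕ) : ℕ∞) ≤ {p : ℚ × ℚ | 0 ≤ p.1 ∧ 0 ≤ p.2 ∧ Lnk F m n p.1 p.2}.encard := by
    have h := Order.add_one_le_of_lt hcon
    have h3 : ((3 : ℕ) : ℕ∞) = 2 + 1 := by norm_num
    rw [h3]
    exact h
  obtain ⟨t, ht, htc⟩ := Set.exists_subset_encard_eq hcon'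
  have htc' : t.encard = 3 := htc
  obtain ⟨p, q, r, hpq, hpr, hqr, rfl⟩ := Set.encard_eq_three.1 htc'
  obtain ⟨p1, p2⟩ := p
  obtain ⟨q1, q2⟩ := q
  obtain ⟨r1, r2⟩ := r
  have hp : 0 ≤ p1 ∧ 0 ≤ p2 ∧ Lnk F m n p1 p2 := ht (Or.inl rfl)
  have hq : 0 ≤ q1 ∧ 0 ≤ q2 ∧ Lnk F m n q1 q2 := ht (Or.inr (Or.inl rfl))
  have hr : 0 ≤ r1 ∧ 0 ≤ r2 ∧ Lnk F m n r1 r2 := ht (Or.inr (Or.inr rfl))
  by_cases e1 : p1 = q1
  · subst e1
    have h2 : p2 ≠ q2 := fun h => hpq (by rw [h])
    exact no_three_aux hF hm hn hmn hp.1 hp.2.1 hq.2.1 hr.1 hr.2.1 h2 hp.2.2 hq.2.2 hr.2.2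
      hpr.symm hqr.symm
  by_cases e2 : p1 = r1
  · subst e2
    have h2 : p2 ≠ r2 := fun h => hpr (by rw [h])
    exact no_three_aux hF hm hn hmn hp.1 hp.2.1 hr.2.1 hq.1 hq.2.1 h2 hp.2.2 hr.2.2 hq.2.2
      hpq.symm hqr
  by_cases e3 : q1 = r1
  · subst e3
    have h2 : q2 ≠ r2 := fun h => hqr (by rw [h])
    exact no_three_aux hF hm hn hmn hq.1 hq.2.1 hr.2.1 hp.1 hp.2.1 h2 hq.2.2 hr.2.2 hp.2.2
      hpq hpr
  have h5 := star_bound hF hm hn hmn {p1, q1, r1}
    (fun a => if a = p1 then p2 else if a = q1 then q2 else r2) (by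
      intro a ha
      simp only [Finset.mem_insert, Finset.mem_singleton] at ha
      rcases ha with rfl | rfl | rfl
      · rw [if_pos rfl]
        exact hp
      · rw [if_neg (fun h => e1 h.symm), if_pos rfl]
        exact hq
      · rw [if_neg (fun h => e2 h.symm), if_neg (fun h => e3 h.symm)]
        exact hr)
  have h6 : ({p1, q1, r1} : Finset ℚ).card = 3 := by
    rw [Finset.card_eq_three]
    exact ⟨p1, q1, r1, e1, e2, e3, rfl⟩
  omega

/-! ### products of powers -/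

lemma zpow_clE {S : Set ℝ} {x : ℝ} (hx : x ∈ (MF F).closure S) (a : ℤ) :
    x ^ a ∈ (MF F).closure S := by
  rcases a with n | n
  · rw [Int.ofNat_eq_natCast, zpow_natCast]
    exact pow_clE hx n
  · rw [zpow_negSucc]
    exact inv_clE (pow_clE hx _)

lemma of_zpow_clE {S : Set ℝ} {x : ℝ} {a : ℤ} (ha : a ≠ 0) (hx : x ^ a ∈ (MF F).closure S) :
    x ∈ (MF F).closure S := by
  rcases a with n | n
  · rw [Int.ofNat_eq_natCast, zpow_natCast] at hx
    refine of_pow_clE (n := n) ?_ hx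
    have h1 : (n : ℤ) ≠ 0 := ha
    omega
  · rw [zpow_negSucc] at hx
    have h1 := inv_clE hx
    rw [inv_inv] at h1
    exact of_pow_clE (Nat.succ_pos n) h1

/-- a relation from a product of powers -/
theorem lnk_of_prod {m n : ℕ} {x y : ℚ} {a b : ℤ} (ha : a ≠ 0) (hb : b ≠ 0)
    (hne : Tl m x ^ a * Tl n y ^ b ≠ 0)
    (h : Tl m x ^ a * Tl n y ^ b ∈ (MF F).closure {Real.exp 1}) : Lnk F m n x y := by
  have hu : Tl m x ≠ 0 := by
    intro h0
    rw [h0, zero_zpow a ha, zero_mul] at hne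
    exact hne rfl
  have hv : Tl n y ≠ 0 := by
    intro h0
    rw [h0, zero_zpow b hb, mul_zero] at hne
    exact hne rfl
  have hw : ∀ S : Set ℝ, Tl m x ^ a * Tl n y ^ b ∈ (MF F).closure (insert (Real.exp 1) S) :=
    fun S => mono_clE (singleton_subset_iff.2 (mem_insert _ _)) h
  constructor
  · refine of_zpow_clE ha ?_
    have h1 : Tl m x ^ a = (Tl m x ^ a * Tl n y ^ b) * (Tl n y ^ b)⁻¹ := by
      rw [mul_assoc, mul_inv_cancel₀ (zpow_ne_zero b hv), mul_one]
    rw [h1]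
    exact mul_clE (hw _) (inv_clE (zpow_clE (self_clE (mem_insert_of_mem _ (mem_singleton _))) b))
  · refine of_zpow_clE hb ?_
    have h1 : Tl n y ^ b = (Tl m x ^ a * Tl n y ^ b) * (Tl m x ^ a)⁻¹ := by
      rw [mul_comm (Tl m x ^ a) (Tl n y ^ b), mul_assoc, mul_inv_cancel₀ (zpow_ne_zero a hu),
        mul_one]
    rw [h1]
    exact mul_clE (hw _) (inv_clE (zpow_clE (self_clE (mem_insert_of_mem _ (mem_singleton _))) a))

/-! ### the field of the even tails -/

/-- the numbers `R_j(y)`, `j` even, `y ≥ 0` -/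
def evenT : Set ℝ := {w | ∃ j : ℕ, Even j ∧ 2 ≤ j ∧ ∃ y : ℚ, 0 ≤ y ∧ w = Tl j y}

/-- numbers `R_m(x)`, `m` odd, algebraic over the field of the even tails -/
theorem odd_law (hF : SimLiouville F) (V : Finset (ℕ × ℚ))
    (hV : ∀ p ∈ V, 3 ≤ p.1 ∧ Odd p.1 ∧ 0 ≤ p.2 ∧
      Tl p.1 p.2 ∈ (MF F).closure (insert (Real.exp 1) evenT)) :
    V.card ≤ (V.image Prod.fst).card + 1 := by
  classical
  -- finitely many even tails
  have h1 : (V.image fun p => Tl p.1 p.2 : Set ℝ) ⊆ (MF F).closure (insert (Real.exp 1) evenT) := by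
    intro z hz
    obtain ⟨p, hp, rfl⟩ := Finset.mem_image.1 (Finset.mem_coe.1 hz)
    exact (hV p hp).2.2.2
  obtain ⟨I, hI, hIfin, -, hVI⟩ :=
    Matroid.exists_subset_finite_closure_of_subset_closure (Finset.finite_toSet _) h1
  have hg : ∀ w : ℝ, ∃ q : ℕ × ℚ, w ∈ evenT → Even q.1 ∧ 2 ≤ q.1 ∧ 0 ≤ q.2 ∧ w = Tl q.1 q.2 := by
    intro w
    by_cases hw : w ∈ evenT
    · obtain ⟨j, hj, hj2, y, hy, h⟩ := hw
      exact ⟨(j, y), fun _ => ⟨hj, hj2, hy, h⟩⟩
    · exact ⟨(0, 0), fun h => absurd h hw⟩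
  choose g hg using hg
  obtain ⟨W, hW⟩ : ∃ W : Finset (ℕ × ℚ), W = (hIfin.toFinset.filter (· ∈ evenT)).image g :=
    ⟨_, rfl⟩
  have hWs : ∀ q ∈ W, Even q.1 ∧ 2 ≤ q.1 ∧ 0 ≤ q.2 := by
    intro q hq
    rw [hW] at hq
    obtain ⟨w, hw, rfl⟩ := Finset.mem_image.1 hq
    have h2 := hg w (Finset.mem_filter.1 hw).2
    exact ⟨h2.1, h2.2.1, h2.2.2.1⟩
  obtain ⟨W', hW'⟩ : ∃ W' : Finset (ℕ × ℚ), W' = W.filter fun q => q.2 ≠ 0 := ⟨_, rfl⟩
  obtain ⟨J, hJ⟩ : ∃ J : Finset ℕ, J = W.image Prod.fst := ⟨_, rfl⟩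
  obtain ⟨Z, hZ⟩ : ∃ Z : Finset (ℕ × ℚ), Z = J.image fun j => (j, (0 : ℚ)) := ⟨_, rfl⟩
  obtain ⟨B, hB⟩ : ∃ B : Finset ℝ, B = insert Real.pi (W'.image fun q => Tl q.1 q.2) := ⟨_, rfl⟩
  have hJs : ∀ j ∈ J, Even j ∧ 2 ≤ j := by
    intro j hj
    rw [hJ] at hj
    obtain ⟨q, hq, rfl⟩ := Finset.mem_image.1 hj
    exact ⟨(hWs q hq).1, (hWs q hq).2.1⟩
  -- closures
  have cW' : ∀ q ∈ W', Tl q.1 q.2 ∈ (MF F).closure (insert (Real.exp 1) (B : Set ℝ)) := by
    intro q hq
    refine self_clE (mem_insert_of_mem _ ?_)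
    rw [Finset.mem_coe, hB]
    exact Finset.mem_insert_of_mem (Finset.mem_image_of_mem _ hq)
  have cpi : Real.pi ∈ (MF F).closure (insert (Real.exp 1) (B : Set ℝ)) := by
    refine self_clE (mem_insert_of_mem _ ?_)
    rw [Finset.mem_coe, hB]
    exact Finset.mem_insert_self _ _
  have cZ : ∀ j, Even j → 2 ≤ j → Tl j 0 ∈ (MF F).closure (insert (Real.exp 1) (B : Set ℝ)) := by
    intro j hj hj2
    obtain ⟨i, hi⟩ := hj
    have hji : j = 2 * i := by omega
    obtain ⟨q, hq⟩ := zt_even (n := i) (by omega)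
    rw [Tl, if_pos rfl, hji, hq]
    exact mul_clE (rat_clE q) (pow_clE cpi _)
  have cI : I ⊆ (MF F).closure (insert (Real.exp 1) (B : Set ℝ)) := by
    intro w hw
    rcases hI hw with rfl | hwE
    · exact self_clE (mem_insert _ _)
    · have h2 := hg w hwE
      have h3 : g w ∈ W := by
        rw [hW]
        exact Finset.mem_image_of_mem _ (Finset.mem_filter.2 ⟨hIfin.mem_toFinset.2 hw, hwE⟩)
      rw [h2.2.2.2]
      by_cases h0 : (g w).2 = 0
      · rw [h0]
        exact cZ _ h2.1 h2.2.1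
      · refine cW' (g w) ?_
        rw [hW']
        exact Finset.mem_filter.2 ⟨h3, h0⟩
  have cV : ∀ p ∈ V, Tl p.1 p.2 ∈ (MF F).closure (insert (Real.exp 1) (B : Set ℝ)) := by
    intro p hp
    have h2 := hVI (Finset.mem_coe.2 (Finset.mem_image_of_mem (fun p => Tl p.1 p.2) hp))
    have h3 := (MF F).closure_subset_closure cI h2
    rwa [Matroid.closure_closure] at h3
  -- counting
  have key := diff_bound hF (V ∪ (W' ∪ Z)) (by
    intro p hp
    rcases Finset.mem_union.1 hp with hp | hp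
    · have h2 := hV p hp
      exact ⟨by omega, h2.2.2.1⟩
    rcases Finset.mem_union.1 hp with hp | hp
    · rw [hW'] at hp
      have h2 := hWs p (Finset.mem_filter.1 hp).1
      exact ⟨h2.2.1, h2.2.2⟩
    · rw [hZ] at hp
      obtain ⟨j, hj, rfl⟩ := Finset.mem_image.1 hp
      exact ⟨(hJs j hj).2, le_rfl⟩) B (by
    intro p hp
    rcases Finset.mem_union.1 hp with hp | hp
    · exact cV p hp
    rcases Finset.mem_union.1 hp with hp | hp
    · exact cW' p hp
    · rw [hZ] at hp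
      obtain ⟨j, hj, rfl⟩ := Finset.mem_image.1 hp
      exact cZ j (hJs j hj).1 (hJs j hj).2)
  have hd1 : Disjoint W' Z := by
    rw [Finset.disjoint_left]
    intro p hp hq
    rw [hW'] at hp
    rw [hZ] at hq
    obtain ⟨j, hj, rfl⟩ := Finset.mem_image.1 hq
    exact (Finset.mem_filter.1 hp).2 rfl
  have hev : ∀ p ∈ W' ∪ Z, Even p.1 := by
    intro p hp
    rcases Finset.mem_union.1 hp with hp | hp
    · rw [hW'] at hp
      exact (hWs p (Finset.mem_filter.1 hp).1).1
    · rw [hZ] at hp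
      obtain ⟨j, hj, rfl⟩ := Finset.mem_image.1 hp
      exact (hJs j hj).1
  have hd2 : Disjoint V (W' ∪ Z) := by
    rw [Finset.disjoint_left]
    intro p hp hq
    exact (Nat.not_odd_iff_even.2 (hev p hq)) (hV p hp).2.1
  have hZc : Z.card = J.card := by
    rw [hZ]
    refine Finset.card_image_of_injective _ ?_
    intro a b hab
    exact (Prod.mk.inj hab).1
  have hBc : B.card ≤ W'.card + 1 := by
    rw [hB]
    refine (Finset.card_insert_le _ _).trans ?_
    exact Nat.add_le_add_right Finset.card_image_le 1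
  have him : ((V ∪ (W' ∪ Z)).image Prod.fst).card ≤ (V.image Prod.fst).card + J.card := by
    refine le_trans (Finset.card_le_card (t := V.image Prod.fst ∪ J) ?_) (Finset.card_union_le _ _)
    intro k hk
    obtain ⟨p, hp, rfl⟩ := Finset.mem_image.1 hk
    rcases Finset.mem_union.1 hp with hp | hp
    · exact Finset.mem_union_left _ (Finset.mem_image_of_mem _ hp)
    refine Finset.mem_union_right _ ?_
    rcases Finset.mem_union.1 hp with hp | hp
    · rw [hW'] at hp
      rw [hJ]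
      exact Finset.mem_image_of_mem _ (Finset.mem_filter.1 hp).1
    · rw [hZ] at hp
      obtain ⟨j, hj, rfl⟩ := Finset.mem_image.1 hp
      exact hj
  rw [Finset.card_union_of_disjoint hd2, Finset.card_union_of_disjoint hd1, hZc] at key
  omega

/-- **All odd indices but one.** -/
theorem odd_law_exists (hF : SimLiouville F) : ∃ n0 : ℕ, ∀ n, 3 ≤ n → Odd n →
    {x : ℚ | 0 ≤ x ∧ Tl n x ∈ (MF F).closure (insert (Real.exp 1) evenT)}.encard ≤ 2 ∧
    (n ≠ n0 →
      {x : ℚ | 0 ≤ x ∧ Tl n x ∈ (MF F).closure (insert (Real.exp 1) evenT)}.encard ≤ 1) := by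
  classical
  obtain ⟨A, hA⟩ : ∃ A : ℕ → Set ℚ, A = fun n => {x : ℚ | 0 ≤ x ∧
    Tl n x ∈ (MF F).closure (insert (Real.exp 1) evenT)} := ⟨_, rfl⟩
  have h2 : ∀ n, 3 ≤ n → Odd n → (A n).encard ≤ 2 := by
    intro n hn hodd
    by_contra hcon
    rw [not_le] at hcon
    have hcon' : ((3 : ℕ) : ℕ∞) ≤ (A n).encard := by
      have h := Order.add_one_le_of_lt hcon
      have h3 : ((3 : ℕ) : ℕ∞) = 2 + 1 := by norm_num
      rw [h3]
      exact h
    obtain ⟨t, ht, htc⟩ := Set.exists_subset_encard_eq hcon'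
    have htc' : t.encard = 3 := htc
    obtain ⟨a, b, c, hab, hac, hbc, rfl⟩ := Set.encard_eq_three.1 htc'
    have ha : a ∈ A n := ht (Or.inl rfl)
    have hb : b ∈ A n := ht (Or.inr (Or.inl rfl))
    have hc : c ∈ A n := ht (Or.inr (Or.inr rfl))
    rw [hA] at ha hb hc
    have h4 := odd_law hF (({a, b, c} : Finset ℚ).image fun x => (n, x)) (by
      intro p hp
      obtain ⟨x, hx, rfl⟩ := Finset.mem_image.1 hp
      simp only [Finset.mem_insert, Finset.mem_singleton] at hx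
      rcases hx with rfl | rfl | rfl
      · exact ⟨hn, hodd, ha⟩
      · exact ⟨hn, hodd, hb⟩
      · exact ⟨hn, hodd, hc⟩)
    have h5 : ((({a, b, c} : Finset ℚ).image fun x => (n, x)).image Prod.fst).card ≤ 1 := by
      refine (Finset.card_le_card (t := {n}) ?_).trans (Finset.card_singleton n).le
      intro k hk
      obtain ⟨p, hp, rfl⟩ := Finset.mem_image.1 hk
      obtain ⟨x, hx, rfl⟩ := Finset.mem_image.1 hp
      exact Finset.mem_singleton_self _
    have h6 : (({a, b, c} : Finset ℚ).image fun x => (n, x)).card = 3 := by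
      rw [Finset.card_image_of_injective, Finset.card_eq_three]
      · exact ⟨a, b, c, hab, hac, hbc, rfl⟩
      · intro u v huv
        exact (Prod.mk.inj huv).2
    omega
  have h1 : ∀ n n', 3 ≤ n → Odd n → 3 ≤ n' → Odd n' → n ≠ n' → 1 < (A n).encard →
      ¬ 1 < (A n').encard := by
    intro n n' hn hodd hn' hodd' hne hc hc'
    obtain ⟨a, b, ha, hb, hab⟩ := Set.one_lt_encard_iff.1 hc
    obtain ⟨a', b', ha', hb', hab'⟩ := Set.one_lt_encard_iff.1 hc'
    rw [hA] at ha hb ha' hb'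
    have h4 := odd_law hF ({(n, a), (n, b), (n', a'), (n', b')} : Finset (ℕ × ℚ)) (by
      intro p hp
      simp only [Finset.mem_insert, Finset.mem_singleton] at hp
      rcases hp with rfl | rfl | rfl | rfl
      · exact ⟨hn, hodd, ha⟩
      · exact ⟨hn, hodd, hb⟩
      · exact ⟨hn', hodd', ha'⟩
      · exact ⟨hn', hodd', hb'⟩)
    have h5 : (({(n, a), (n, b), (n', a'), (n', b')} : Finset (ℕ × ℚ)).image Prod.fst).card ≤ 2 := by
      refine (Finset.card_le_card (t := {n, n'}) ?_).trans Finset.card_le_two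
      intro k hk
      obtain ⟨p, hp, rfl⟩ := Finset.mem_image.1 hk
      simp only [Finset.mem_insert, Finset.mem_singleton] at hp
      rcases hp with rfl | rfl | rfl | rfl <;> simp
    have h6 : ({(n, a), (n, b), (n', a'), (n', b')} : Finset (ℕ × ℚ)).card = 4 := by
      rw [Finset.card_insert_of_notMem, Finset.card_insert_of_notMem, Finset.card_pair]
      · simp [hab']
      · simp [hne]
      · simp [hne, hab]
    omega
  by_cases hex : ∃ n0, 3 ≤ n0 ∧ Odd n0 ∧ 1 < (A n0).encard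
  · obtain ⟨n0, hn0, hodd0, hc0⟩ := hex
    refine ⟨n0, fun n hn hodd => ?_⟩
    have h3 := h2 n hn hodd
    rw [hA] at h3
    refine ⟨h3, fun hne => ?_⟩
    have h4 := h1 n0 n hn0 hodd0 hn hodd hne.symm hc0
    rw [not_lt, hA] at h4
    exact h4
  · refine ⟨0, fun n hn hodd => ?_⟩
    have h3 := h2 n hn hodd
    rw [hA] at h3
    refine ⟨h3, fun _ => ?_⟩
    have h4 : ¬ 1 < (A n).encard := fun h => hex ⟨n, hn, hodd, h⟩
    rw [not_lt, hA] at h4
    exact h4

end

end Pool.Agent.U456.IZ
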