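import Pool.Agent.U456.IZ.Tup

/-!
# Tuples of tails: counting exceptions with a given set of generators at zero
-/

set_option autoImplicit false

open Set

namespace Pool.Agent.U456.IZ

open Pool.Agent.R352.E Pool.Agent.R352.Q Pool.Agent.N743.SS Pool.Agent.Q163.LE

section

variable {F : Subfield ℝ}

lemma self_clE {S : Set ℝ} {x : ℝ} (h : x ∈ S) : x ∈ (MF F).closure S :=
  (MF F).subset_closure _ (subset_univ _) h

lemma mono_clE {S T : Set ℝ} (h : S ⊆ T) {x : ℝ} (hx : x ∈ (MF F).closure S) :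
    x ∈ (MF F).closure T := (MF F).closure_subset_closure h hx

lemma mul_clE {S : Set ℝ} {x y : ℝ} (hx : x ∈ (MF F).closure S) (hy : y ∈ (MF F).closure S) :
    x * y ∈ (MF F).closure S := mem_clE.2 ((mem_clE.1 hx).mul (mem_clE.1 hy))

lemma pow_clE {S : Set ℝ} {x : ℝ} (hx : x ∈ (MF F).closure S) (n : ℕ) :
    x ^ n ∈ (MF F).closure S := mem_clE.2 ((mem_clE.1 hx).pow n)

lemma inv_clE {S : Set ℝ} {x : ℝ} (hx : x ∈ (MF F).closure S) :
    x⁻¹ ∈ (MF F).closure S := mem_clE.2 (IsAlgebraic.inv_iff.2 (mem_clE.1 hx))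

lemma of_pow_clE {S : Set ℝ} {x : ℝ} {n : ℕ} (hn : 0 < n) (hx : x ^ n ∈ (MF F).closure S) :
    x ∈ (MF F).closure S := mem_clE.2 ((mem_clE.1 hx).of_pow hn)

lemma rat_clE {S : Set ℝ} (q : ℚ) : (q : ℝ) ∈ (MF F).closure S := by
  refine mem_clE.2 ?_
  have h1 : (q : ℝ) ∈ Algebra.adjoin F S := by
    have h2 := (Algebra.adjoin F S).algebraMap_mem (q : F)
    have h3 : algebraMap F ℝ (q : F) = (q : ℝ) := by simp
    rwa [h3] at h2
  exact isAlgebraic_algebraMap (A := ℝ) (⟨(q : ℝ), h1⟩ : Algebra.adjoin F S)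

/-- a small generating set for a dependent family -/
lemma small_gen' (hF : SimLiouville F) {κ : Type} [Fintype κ] (y : κ → ℝ)
    (h : ¬ AlgebraicIndependent F (Sum.elim y (fun _ : Unit => Real.exp 1))) :
    ∃ B : Finset ℝ, B.card + 1 ≤ Fintype.card κ ∧
      ∀ i, y i ∈ (MF F).closure (insert (Real.exp 1) (B : Set ℝ)) := by
  classical
  obtain ⟨z, hz⟩ : ∃ z : κ ⊕ Unit → ℝ, z = Sum.elim y (fun _ : Unit => Real.exp 1) := ⟨_, rfl⟩
  rw [← hz] at h
  have hrk : ¬ ((Fintype.card (κ ⊕ Unit) : ℕ∞) ≤ (MF F).eRk (range z)) :=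
    fun hcon => h (ai_of_rank hcon)
  have he : (MF F).Indep {Real.exp 1} := by
    have h2 : AlgebraicIndependent F (fun _ : Unit => Real.exp 1) := by
      rw [algebraicIndependent_unique_type_iff]
      exact transc_e hF
    have h3 := h2.to_subtype_range
    have h1 : range (fun _ : Unit => Real.exp 1) = {Real.exp 1} := Set.range_const
    rw [h1] at h3
    exact h3
  have hmem : ({Real.exp 1} : Set ℝ) ⊆ range z := by
    rw [singleton_subset_iff]
    exact ⟨Sum.inr (), by rw [hz]; rfl⟩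
  obtain ⟨I, hI, heI⟩ := he.subset_isBasis_of_subset hmem (subset_univ _)
  have hfin : (range z).Finite := finite_range _
  have hIfin : I.Finite := hfin.subset hI.subset
  obtain ⟨I', rfl⟩ : ∃ I' : Finset ℝ, (I' : Set ℝ) = I := ⟨hIfin.toFinset, hIfin.coe_toFinset⟩
  rw [← hI.encard_eq_eRk, encard_coe_eq_coe_finsetCard, not_le] at hrk
  have hc : I'.card < Fintype.card (κ ⊕ Unit) := by exact_mod_cast hrk
  rw [Fintype.card_sum, Fintype.card_unit] at hc
  have heI' : Real.exp 1 ∈ I' := by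
    have := singleton_subset_iff.1 heI
    exact_mod_cast this
  refine ⟨I'.erase (Real.exp 1), ?_, fun i => ?_⟩
  · rw [Finset.card_erase_add_one heI']
    omega
  · have h1 : y i ∈ (MF F).closure (I' : Set ℝ) :=
      hI.subset_closure ⟨Sum.inl i, by rw [hz]; rfl⟩
    have h2 : insert (Real.exp 1) ((I'.erase (Real.exp 1) : Finset ℝ) : Set ℝ) = (I' : Set ℝ) := by
      rw [← Finset.coe_insert, Finset.insert_erase heI']
    rwa [h2]

/-- independence over `F(e)` -/
lemma fam_iff (hF : SimLiouville F) {κ : Type} (y : κ → ℝ) :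
    AlgebraicIndependent (Algebra.adjoin F ({Real.exp 1} : Set ℝ)) y ↔
      AlgebraicIndependent F (Sum.elim y (fun _ : Unit => Real.exp 1)) := by
  have h1 : range (fun _ : Unit => Real.exp 1) = {Real.exp 1} := Set.range_const
  have h2 : AlgebraicIndependent F (fun _ : Unit => Real.exp 1) := by
    rw [algebraicIndependent_unique_type_iff]
    exact transc_e hF
  rw [AlgebraicIndependent.sumElim_iff, h1]
  exact ⟨fun h => ⟨h2, h⟩, fun h => h.2⟩

/-- **Positive exceptions**, if the numbers at zero have `B0` as generators. -/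
theorem pos_exceptions (hF : SimLiouville F) (K : Finset ℕ) (hK : ∀ k ∈ K, 2 ≤ k) (X : Finset ℚ)
    (hX : ∀ x ∈ X, 0 < x) (B0 : Finset ℝ)
    (hB0 : ∀ k ∈ K, Tl k 0 ∈ (MF F).closure (insert (Real.exp 1) (B0 : Set ℝ)))
    (h : ∀ x ∈ X, ¬ AlgebraicIndependent F (tup K x)) : X.card ≤ B0.card := by
  classical
  have hex : ∀ x : ℚ, ∃ B : Finset ℝ, x ∈ X → B.card + 1 ≤ K.card ∧
      ∀ k ∈ K, Tl k x ∈ (MF F).closure (insert (Real.exp 1) (B : Set ℝ)) := by
    intro x
    by_cases hx : x ∈ X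
    · obtain ⟨B, hB⟩ := small_gen hF K x (h x hx)
      exact ⟨B, fun _ => hB⟩
    · exact ⟨∅, fun h => absurd h hx⟩
  choose B hB using hex
  obtain ⟨U, hU⟩ : ∃ U : Finset ℝ, U = insert (Real.exp 1) (X.biUnion B ∪ B0) := ⟨_, rfl⟩
  have hcl : ∀ x ∈ X, ∀ k ∈ K, Tl k x ∈ (MF F).closure (U : Set ℝ) := by
    intro x hx k hk
    refine mono_clE ?_ ((hB x hx).2 k hk)
    rw [hU, Finset.coe_insert]
    refine insert_subset_insert ?_
    intro z hz
    rw [Finset.mem_coe] at hz ⊢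
    exact Finset.mem_union_left _ (Finset.mem_biUnion.2 ⟨x, hx, hz⟩)
  have hcl0 : ∀ k ∈ K, Tl k 0 ∈ (MF F).closure (U : Set ℝ) := by
    intro k hk
    refine mono_clE ?_ (hB0 k hk)
    rw [hU, Finset.coe_insert]
    refine insert_subset_insert ?_
    intro z hz
    rw [Finset.mem_coe] at hz ⊢
    exact Finset.mem_union_right _ hz
  have hai := ai_grid hF K hK X hX
  have hcard := card_le_finset hai (T := U) (by
    rintro (_ | ⟨k, x⟩)
    · refine self_clE ?_
      rw [Finset.mem_coe, hU]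
      exact Finset.mem_insert_self _ _
    · show Zk k x ∈ _
      rw [Tl_sub (k : ℕ) (hX x x.2).ne']
      exact sub_clE (hcl0 k k.2) (hcl x x.2 k k.2))
  rw [Fintype.card_option, Fintype.card_prod, Fintype.card_coe, Fintype.card_coe] at hcard
  have hU1 : U.card ≤ (∑ x ∈ X, (B x).card) + B0.card + 1 := by
    rw [hU]
    refine (Finset.card_insert_le _ _).trans ?_
    have h1 := Finset.card_union_le (X.biUnion B) B0
    have h2 := Finset.card_biUnion_le (s := X) (t := B)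
    omega
  have hsum : ∑ x ∈ X, (B x).card + X.card ≤ X.card * K.card := by
    have h1 : ∑ x ∈ X, ((B x).card + 1) ≤ ∑ x ∈ X, K.card :=
      Finset.sum_le_sum fun x hx => (hB x hx).1
    rw [Finset.sum_add_distrib, Finset.sum_const, Finset.sum_const, smul_eq_mul, smul_eq_mul,
      mul_one] at h1
    exact h1
  have h3 : X.card * K.card = K.card * X.card := by ring
  omega

/-- the number of exceptions `x ≥ 0`, if there are `c + 1` generators at zero, and `c` if zero is an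
exception -/
theorem encard_exceptions (hF : SimLiouville F) (K : Finset ℕ) (hK : ∀ k ∈ K, 2 ≤ k) (c : ℕ)
    (P : ℚ → Prop) (hP : ∀ x, 0 < x → P x → ¬ AlgebraicIndependent F (tup K x))
    (h1 : ∃ B0 : Finset ℝ, B0.card ≤ c + 1 ∧
      ∀ k ∈ K, Tl k 0 ∈ (MF F).closure (insert (Real.exp 1) (B0 : Set ℝ)))
    (h2 : P 0 → ∃ B0 : Finset ℝ, B0.card ≤ c ∧
      ∀ k ∈ K, Tl k 0 ∈ (MF F).closure (insert (Real.exp 1) (B0 : Set ℝ))) :
    {x : ℚ | 0 ≤ x ∧ P x}.encard ≤ (c + 1 : ℕ) := by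
  classical
  by_contra hcon
  rw [not_le] at hcon
  have hcon' : ((c + 1 + 1 : ℕ) : ℕ∞) ≤ {x : ℚ | 0 ≤ x ∧ P x}.encard := by
    push_cast
    push_cast at hcon
    exact Order.add_one_le_of_lt hcon
  obtain ⟨t, ht, htc⟩ := Set.exists_subset_encard_eq hcon'
  have hfin : t.Finite := by
    rw [← Set.encard_lt_top_iff, htc]
    exact ENat.natCast_lt_top _
  obtain ⟨X, rfl⟩ : ∃ X : Finset ℚ, (X : Set ℚ) = t := ⟨hfin.toFinset, hfin.coe_toFinset⟩
  rw [Set.encard_coe_eq_coe_finsetCard] at htc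
  have hc : X.card = c + 1 + 1 := by exact_mod_cast htc
  have key : ∀ B0 : Finset ℝ,
      (∀ k ∈ K, Tl k 0 ∈ (MF F).closure (insert (Real.exp 1) (B0 : Set ℝ))) →
      (X.erase 0).card ≤ B0.card := by
    intro B0 hB0
    refine pos_exceptions hF K hK (X.erase 0) (fun x hx => ?_) B0 hB0 (fun x hx => ?_)
    · exact lt_of_le_of_ne (ht (Finset.mem_coe.2 (Finset.mem_of_mem_erase hx))).1
        (Finset.ne_of_mem_erase hx).symm
    · have h4 := ht (Finset.mem_coe.2 (Finset.mem_of_mem_erase hx))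
      exact hP x (lt_of_le_of_ne h4.1 (Finset.ne_of_mem_erase hx).symm) h4.2
  by_cases h0 : (0 : ℚ) ∈ X
  · obtain ⟨B0, hB1, hB2⟩ := h2 (ht (Finset.mem_coe.2 h0)).2
    have h5 := key B0 hB2
    rw [Finset.card_erase_of_mem h0] at h5
    omega
  · obtain ⟨B0, hB1, hB2⟩ := h1
    have h5 := key B0 hB2
    rw [Finset.erase_eq_of_notMem h0] at h5
    omega

end

end Pool.Agent.U456.IZ
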