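import Mathlib

/-!
# The coefficients of a logarithmic derivative as polynomials in the coefficients of the series
-/

set_option autoImplicit false

namespace Pool.Agent.U456.IZ

open PowerSeries

section

variable {S : Type} [CommRing S]

/-- `a_0 ^ (j+1)` times the coefficient of `X ^ j` in the logarithmic derivative of `∑ a_i X ^ i` -/
def NR (a : ℕ → S) : ℕ → S
  | j => ((j : S) + 1) * a 0 ^ j * a (j + 1) -
      ∑ p : Fin j, a ((p : ℕ) + 1) * a 0 ^ (p : ℕ) * NR a (j - ((p : ℕ) + 1))
decreasing_by
  have := p.2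
  omega

lemma NR_eq (a : ℕ → S) (j : ℕ) : NR a j = ((j : S) + 1) * a 0 ^ j * a (j + 1) -
    ∑ p : Fin j, a ((p : ℕ) + 1) * a 0 ^ (p : ℕ) * NR a (j - ((p : ℕ) + 1)) := by
  rw [NR]

lemma NR_congr {a b : ℕ → S} (j : ℕ) (h : ∀ i ≤ j + 1, a i = b i) : NR a j = NR b j := by
  induction j using Nat.strong_induction_on with
  | _ j ih =>
    rw [NR_eq a, NR_eq b, h 0 (by omega), h (j + 1) le_rfl]
    congr 1
    refine Finset.sum_congr rfl fun p _ => ?_
    have := p.2
    rw [h (p + 1) (by omega), ih (j - (p + 1)) (by omega) fun i hi => h i (by omega)]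

lemma NR_step {a b : ℕ → S} (j : ℕ) (h : ∀ i ≤ j, a i = b i) :
    NR a j - NR b j = ((j : S) + 1) * a 0 ^ j * (a (j + 1) - b (j + 1)) := by
  rw [NR_eq a, NR_eq b, h 0 (by omega)]
  have h1 : ∑ p : Fin j, a ((p : ℕ) + 1) * b 0 ^ (p : ℕ) * NR a (j - ((p : ℕ) + 1)) =
      ∑ p : Fin j, b ((p : ℕ) + 1) * b 0 ^ (p : ℕ) * NR b (j - ((p : ℕ) + 1)) := by
    refine Finset.sum_congr rfl fun p _ => ?_
    have := p.2
    rw [h (p + 1) (by omega), NR_congr (j - (p + 1)) fun i hi => h i (by omega)]
  rw [h1]
  ring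

lemma NR_map {T : Type} [CommRing T] (f : S →+* T) (a : ℕ → S) (j : ℕ) :
    f (NR a j) = NR (fun i => f (a i)) j := by
  induction j using Nat.strong_induction_on with
  | _ j ih =>
    rw [NR_eq, NR_eq]
    simp only [map_sub, map_mul, map_pow, map_sum, map_add, map_natCast, map_one]
    congr 1
    refine Finset.sum_congr rfl fun p _ => ?_
    have := p.2
    rw [ih (j - (p + 1)) (by omega)]

end

lemma NR_series {K : Type} [Field K] {F L : K⟦X⟧} (h : derivative K F = F * L) (j : ℕ) :
    constantCoeff F ^ (j + 1) * coeff j L = NR (fun i => coeff i F) j := by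
  induction j using Nat.strong_induction_on with
  | _ j ih =>
    rw [NR_eq]
    have h1 := congrArg (coeff j) h
    rw [coeff_derivative, coeff_mul, Finset.Nat.sum_antidiagonal_eq_sum_range_succ_mk,
      Finset.sum_range_succ', Finset.sum_range] at h1
    simp only [Nat.sub_zero] at h1
    have h0 : coeff 0 F = constantCoeff F := by rw [coeff_zero_eq_constantCoeff_apply]
    rw [h0] at h1 ⊢
    have h2 : constantCoeff F ^ (j + 1) * coeff j L =
        constantCoeff F ^ j * (constantCoeff F * coeff j L) := by ring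
    have h3 : constantCoeff F * coeff j L = coeff (j + 1) F * ((j : K) + 1) -
        ∑ p : Fin j, coeff ((p : ℕ) + 1) F * coeff (j - ((p : ℕ) + 1)) L := by
      rw [h1]; ring
    rw [h2, h3, mul_sub, Finset.mul_sum]
    congr 1
    · ring
    · refine Finset.sum_congr rfl fun p _ => ?_
      have hp := p.2
      rw [← ih (j - (p + 1)) (by omega)]
      have h4 : constantCoeff F ^ j =
          constantCoeff F ^ (p : ℕ) * constantCoeff F ^ (j - ((p : ℕ) + 1) + 1) := by
        rw [← pow_add]
        congr 1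
        omega
      rw [h4]
      ring

end Pool.Agent.U456.IZ
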