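import Pool.Agent.N743.SS.PiE
import Pool.Agent.R352.Q.Ind
import Pool.Agent.U456.IZ.Rec

/-!
# Incomplete zeta values: joint measures
-/

set_option autoImplicit false

namespace Pool.Agent.U456.IZ

open Pool.Agent.R352.E Pool.Agent.R352.Q Pool.Agent.N743.SS
open Pool.Agent.R356 (JointR)

section

variable {n : ℕ} (k : ℕ) (mm : Fin n → ℕ)

/-- the coefficients of the series `As` as polynomials -/
noncomputable def sq (i : Fin n) : ℕ → MvPolynomial (Option (Fin k × Fin n)) ℤ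
  | 0 => 1 - MvPolynomial.X none ^ mm i
  | l + 1 => if h : l < k then (-1) ^ (l + 1) * MvPolynomial.X (some (⟨l, h⟩, i)) else 0

/-- the incomplete zeta value as a polynomial -/
noncomputable def Zp (i : Fin n) : MvPolynomial (Option (Fin k × Fin n)) ℤ :=
  (-1) ^ k * NR (sq k mm i) (k - 1)

/-- the point -/
noncomputable def pt (q : ℕ) : Option (Fin k × Fin n) → ℝ :=
  fun o => o.elim (Real.exp (-1 / q)) (fun p => EE (p.1 + 1) ((mm p.2 : ℝ) / q))

lemma aeval_sq (q : ℕ) (i : Fin n) (l : ℕ) (hl : l ≤ k) :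
    MvPolynomial.aeval (pt k mm q) (sq k mm i l) = PowerSeries.coeff l (As ((mm i : ℝ) / q)) := by
  cases l with
  | zero =>
    rw [PowerSeries.coeff_zero_eq_constantCoeff_apply, const_As, sq]
    simp only [map_sub, map_one, map_pow, MvPolynomial.aeval_X, pt, Option.elim]
    rw [← Real.exp_nat_mul]
    congr 2
    ring
  | succ l =>
    have h : l < k := by omega
    rw [As, PowerSeries.coeff_mk, sq, dif_pos h]
    simp only [map_mul, map_pow, map_neg, map_one, MvPolynomial.aeval_X, pt, Option.elim]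

lemma aeval_Zp (q : ℕ) (hk : 1 ≤ k) (hq : 1 ≤ q) (i : Fin n) (hm : 1 ≤ mm i) :
    MvPolynomial.aeval (pt k mm q) (Zp k mm i) = Zk k ((mm i : ℝ) / q) := by
  have hx : (0 : ℝ) < (mm i : ℝ) / q := by
    have h1 : (0 : ℝ) < mm i := by exact_mod_cast hm
    have h2 : (0 : ℝ) < q := by exact_mod_cast hq
    positivity
  have h1 := NR_series (deriv_As hx) (k - 1)
  rw [Nat.sub_add_cancel hk, const_As] at h1
  rw [Zp, Zk, h1, map_mul]
  congr 1
  · simp
  · have h2 := NR_map (MvPolynomial.aeval (pt k mm q) :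
      MvPolynomial (Option (Fin k × Fin n)) ℤ →ₐ[ℤ] ℝ).toRingHom (sq k mm i) (k - 1)
    refine h2.trans ?_
    refine NR_congr _ fun l hl => ?_
    exact aeval_sq k mm q i l (by omega)

/-- the special points -/
noncomputable def ps (i₀ : Fin n) (t : ℂ) : Option (Fin k × Fin n) → ℂ :=
  fun o => o.elim 2 (fun p => if (p.1 : ℕ) + 1 = k ∧ p.2 = i₀ then t else 0)

lemma aeval_ps_sq (i₀ i : Fin n) (t : ℂ) (l : ℕ) (h : l < k ∨ i ≠ i₀) :
    MvPolynomial.aeval (ps k i₀ t) (sq k mm i l) = MvPolynomial.aeval (ps k i₀ 0) (sq k mm i l) := by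
  cases l with
  | zero => simp [sq, ps]
  | succ l =>
    rw [sq]
    split_ifs with hl
    · simp only [map_mul, map_pow, map_neg, map_one, MvPolynomial.aeval_X, ps, Option.elim]
      congr 1
      by_cases h1 : l + 1 = k ∧ i = i₀
      · rcases h with h | h
        · omega
        · exact absurd h1.2 h
      · rw [if_neg h1, if_neg h1]
    · simp

lemma aeval_ps_top (i₀ : Fin n) (t : ℂ) (hk : 1 ≤ k) :
    MvPolynomial.aeval (ps k i₀ t) (sq k mm i₀ k) = (-1) ^ k * t := by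
  obtain ⟨l, rfl⟩ : ∃ l, k = l + 1 := ⟨k - 1, by omega⟩
  rw [sq, dif_pos (by omega)]
  simp [ps]

lemma aeval_ps_zero (i₀ i : Fin n) (t : ℂ) :
    MvPolynomial.aeval (ps k i₀ t) (sq k mm i 0) = 1 - 2 ^ mm i := by
  simp [sq, ps]

lemma aeval_NR (ψ : Option (Fin k × Fin n) → ℂ) (i : Fin n) (j : ℕ) :
    MvPolynomial.aeval ψ (NR (sq k mm i) j) =
      NR (fun l => MvPolynomial.aeval ψ (sq k mm i l)) j :=
  NR_map (MvPolynomial.aeval ψ :
    MvPolynomial (Option (Fin k × Fin n)) ℤ →ₐ[ℤ] ℂ).toRingHom (sq k mm i) j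

lemma Zp_other (i₀ i : Fin n) (t : ℂ) (h : i ≠ i₀) :
    MvPolynomial.aeval (ps k i₀ t) (Zp k mm i) = MvPolynomial.aeval (ps k i₀ 0) (Zp k mm i) := by
  rw [Zp, map_mul, map_mul, aeval_NR, aeval_NR]
  congr 1
  · simp
  · exact NR_congr _ fun l _ => aeval_ps_sq k mm i₀ i t l (Or.inr h)

lemma Zp_self (i₀ : Fin n) (hk : 1 ≤ k) :
    MvPolynomial.aeval (ps k i₀ 1) (Zp k mm i₀) - MvPolynomial.aeval (ps k i₀ 0) (Zp k mm i₀) =
      (k : ℂ) * (1 - 2 ^ mm i₀) ^ (k - 1) := by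
  rw [Zp, map_mul, map_mul, aeval_NR, aeval_NR]
  simp only [map_pow, map_neg, map_one]
  rw [← mul_sub, NR_step (k - 1) fun l hl => aeval_ps_sq k mm i₀ i₀ 1 l (Or.inl (by omega)),
    Nat.sub_add_cancel hk, aeval_ps_top k mm i₀ 1 hk, aeval_ps_top k mm i₀ 0 hk, aeval_ps_zero]
  have h1 : ((-1 : ℂ) ^ k) * (-1) ^ k = 1 := by rw [← mul_pow]; norm_num
  have h2 : (((k - 1 : ℕ) : ℂ) + 1) = k := by
    have : (k - 1 : ℕ) + 1 = k := Nat.sub_add_cancel hk
    exact_mod_cast this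
  rw [h2]
  linear_combination ((k : ℂ) * (1 - 2 ^ mm i₀) ^ (k - 1)) * h1

end

/-- **Joint measures.**  If `e^(-r) u - e^(-s) v` is a nontrivial integer linear combination of incomplete
zeta values of weight `k` at different positive rational numbers, then `u` and `v` have a joint
measure. -/
theorem joint_main (k : ℕ) (hk : 1 ≤ k) {n : ℕ} (x : Fin n → ℚ) (hinj : Function.Injective x)
    (hpos : ∀ i, 0 < x i) (ε : Fin n → ℤ) (i₀ : Fin n) (hε : ε i₀ ≠ 0) (r s : ℚ) (u v : ℝ)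
    (h : Real.exp (-(r : ℝ)) * u = ∑ i, (ε i : ℝ) * Zk k (x i) + Real.exp (-(s : ℝ)) * v) :
    JointR u v := by
  classical
  obtain ⟨q, hq⟩ : ∃ q, q = (∏ i, (x i).den) * (r.den * s.den) := ⟨_, rfl⟩
  have hq1 : 1 ≤ q := by
    rw [hq]
    refine Nat.one_le_iff_ne_zero.2 (Nat.mul_ne_zero
      (Finset.prod_ne_zero_iff.2 fun i _ => (x i).den_ne_zero)
      (Nat.mul_ne_zero r.den_ne_zero s.den_ne_zero))
  have hq0 : (q : ℝ) ≠ 0 := by positivity
  have hx : ∀ i, ∃ m : ℕ, 1 ≤ m ∧ (m : ℝ) / q = x i := fun i =>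
    nat_of_den (x i) (hpos i) q (by
      rw [hq]
      exact (Finset.dvd_prod_of_mem (fun i => (x i).den) (Finset.mem_univ i)).mul_right _) hq1
  choose mm hm1 hmx using hx
  have hminj : Function.Injective mm := by
    intro i j hij
    apply hinj
    have h1 : ((x i : ℚ) : ℝ) = x j := by rw [← hmx i, ← hmx j, hij]
    exact_mod_cast h1
  obtain ⟨R, hR⟩ := int_of_den r q (by
    rw [hq]; exact (dvd_mul_right r.den s.den).mul_left _) hq1
  obtain ⟨T, hT⟩ := int_of_den s q (by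
    rw [hq]; exact (dvd_mul_left s.den r.den).mul_left _) hq1
  have hmeas := measM_EE k n mm hminj hm1 hq1
  obtain ⟨N, hN⟩ : ∃ N : ℕ, N = R.natAbs + T.natAbs := ⟨_, rfl⟩
  obtain ⟨A, hA⟩ : ∃ A : ℕ, (A : ℤ) = N + R := ⟨(N + R).toNat, by omega⟩
  obtain ⟨B, hB⟩ : ∃ B : ℕ, (B : ℤ) = N + T := ⟨(N + T).toNat, by omega⟩
  have hw : ∀ i : ℕ, Real.exp (-1 / q) ^ i = Real.exp (-(i / q)) := by
    intro i
    rw [← Real.exp_nat_mul]
    congr 1
    ring
  refine jointR_lin (pt k mm q) hmeas u v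
    (MvPolynomial.X none ^ N * ∑ i, MvPolynomial.C (ε i) * Zp k mm i)
    (MvPolynomial.X none ^ B) (MvPolynomial.X none ^ A) ?_ ?_ ?_
  · simp only [map_mul, map_pow, map_sum, MvPolynomial.aeval_X, MvPolynomial.aeval_C]
    have hn : pt k mm q none = Real.exp (-1 / q) := rfl
    rw [hn, hw, hw, hw]
    have e1 : Real.exp (-((A : ℝ) / q)) = Real.exp (-((N : ℝ) / q)) * Real.exp (-(r : ℝ)) := by
      rw [← Real.exp_add, ← hR]
      congr 1
      have : (A : ℝ) = N + R := by exact_mod_cast hA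
      rw [this]; ring
    have e2 : Real.exp (-((B : ℝ) / q)) = Real.exp (-((N : ℝ) / q)) * Real.exp (-(s : ℝ)) := by
      rw [← Real.exp_add, ← hT]
      congr 1
      have : (B : ℝ) = N + T := by exact_mod_cast hB
      rw [this]; ring
    have e3 : ∑ i, (algebraMap ℤ ℝ) (ε i) * (MvPolynomial.aeval (pt k mm q)) (Zp k mm i) =
        ∑ i, (ε i : ℝ) * Zk k (x i) := by
      refine Finset.sum_congr rfl fun i _ => ?_
      rw [aeval_Zp k mm q hk hq1 i (hm1 i), hmx i]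
      simp
    rw [e3, e1, e2, mul_assoc, h]
    ring
  · exact pow_ne_zero _ (MvPolynomial.X_ne_zero _)
  · intro α β _ _
    by_contra hcon
    push Not at hcon
    have h1 := hcon (ps k i₀ 1)
    have h0 := hcon (ps k i₀ 0)
    simp only [map_mul, map_pow, map_sum, MvPolynomial.aeval_X, MvPolynomial.aeval_C] at h0 h1
    have hn : ∀ t, ps k i₀ t none = 2 := fun t => rfl
    rw [hn] at h0 h1
    have hs : ∑ i, (algebraMap ℤ ℂ) (ε i) * (MvPolynomial.aeval (ps k i₀ 1)) (Zp k mm i) -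
        ∑ i, (algebraMap ℤ ℂ) (ε i) * (MvPolynomial.aeval (ps k i₀ 0)) (Zp k mm i) =
        (ε i₀ : ℂ) * ((k : ℂ) * (1 - 2 ^ mm i₀) ^ (k - 1)) := by
      rw [← Finset.sum_sub_distrib, Finset.sum_eq_single i₀]
      · rw [← mul_sub, Zp_self k mm i₀ hk]
        simp
      · intro i _ hi
        rw [Zp_other k mm i₀ i 1 hi, sub_self]
      · intro hi
        exact absurd (Finset.mem_univ _) hi
    have h2 : (2 : ℂ) ^ N * ((ε i₀ : ℂ) * ((k : ℂ) * (1 - 2 ^ mm i₀) ^ (k - 1))) = 0 := by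
      rw [← hs]
      linear_combination h1 - h0
    have h3 : (1 - 2 ^ mm i₀ : ℂ) ≠ 0 := by
      rw [sub_ne_zero]
      have h4 : 1 < 2 ^ mm i₀ := Nat.one_lt_two_pow (by have := hm1 i₀; omega)
      have h5 : (1 : ℕ) ≠ 2 ^ mm i₀ := h4.ne
      exact_mod_cast h5
    have h4 : (k : ℂ) ≠ 0 := by
      have : k ≠ 0 := by omega
      exact_mod_cast this
    have h5 : (ε i₀ : ℂ) ≠ 0 := by exact_mod_cast hε
    have h6 : (2 : ℂ) ^ N ≠ 0 := pow_ne_zero _ two_ne_zero
    exact (mul_ne_zero h6 (mul_ne_zero h5 (mul_ne_zero h4 (pow_ne_zero _ h3)))) h2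

/-- the numbers `e^s ζ(k)` (index `(none, s)`) and `e^s R_k(x)` (index `(some x, s)`) -/
noncomputable def fz (k : ℕ) (p : Option ℚ × ℚ) : ℝ :=
  Real.exp p.2 * p.1.elim (zt k) (fun x => Rk k x)

lemma zt_pos {k : ℕ} (hk : 2 ≤ k) : 0 < zt k := by
  unfold zt
  have hs : Summable fun n : ℕ => 1 / ((n : ℝ) + 1) ^ k := by
    have h := (summable_nat_add_iff 1).2 (Real.summable_one_div_nat_pow.2 (by omega : 1 < k))
    refine h.congr fun n => ?_
    push_cast
    rfl
  have h1 := hs.le_tsum 0 fun n _ => by positivity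
  refine lt_of_lt_of_le ?_ h1
  norm_num

lemma joint_cross (k : ℕ) (hk : 2 ≤ k) (x s t : ℚ) (hx : 0 < x) :
    JointR (fz k (none, s)) (fz k (some x, t)) := by
  refine joint_main k (by omega) (fun _ : Fin 1 => x) (fun _ _ _ => Subsingleton.elim _ _)
    (fun _ => hx) (fun _ => 1) 0 one_ne_zero s t _ _ ?_
  simp only [fz, Option.elim, Finset.univ_unique, Finset.sum_const, Finset.card_singleton, Rk]
  rw [← mul_assoc, ← mul_assoc, ← Real.exp_add, ← Real.exp_add]
  simp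

lemma joint_tails (k : ℕ) (hk : 2 ≤ k) (x y s t : ℚ) (hx : 0 < x) (hy : 0 < y) (hxy : x ≠ y) :
    JointR (fz k (some x, s)) (fz k (some y, t)) := by
  refine joint_main k (by omega) ![x, y] ?_ ?_ ![-1, 1] 0 (by simp) s t _ _ ?_
  · intro i j hij
    fin_cases i <;> fin_cases j
    · rfl
    · exact absurd hij hxy
    · exact absurd hij.symm hxy
    · rfl
  · intro i
    fin_cases i
    · exact hx
    · exact hy
  · simp only [fz, Option.elim, Rk, Fin.sum_univ_two, Matrix.cons_val_zero, Matrix.cons_val_one]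
    rw [← mul_assoc, ← mul_assoc, ← Real.exp_add, ← Real.exp_add]
    simp
    ring

/-- all pairs -/
theorem joint_fz (k : ℕ) (hk : 2 ≤ k) {ι : Type} (b : ι → Option ℚ × ℚ)
    (hb : Function.Injective b) (hpos : ∀ i x, (b i).1 = some x → 0 < x)
    (h0 : ∀ i i' x, i ≠ i' → (b i).1 = some x → (b i').1 = some x → Rk k x ≠ 0) (i j : ι)
    (hij : i ≠ j) : JointR (fz k (b i)) (fz k (b j)) := by
  obtain ⟨o, s, hi⟩ : ∃ o s, b i = (o, s) := ⟨_, _, rfl⟩
  obtain ⟨o', t, hj⟩ : ∃ o s, b j = (o, s) := ⟨_, _, rfl⟩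
  have hne : b i ≠ b j := fun h => hij (hb h)
  have hpi := hpos i
  have hpj := hpos j
  have h0' := fun x => h0 i j x hij
  rw [hi, hj] at hne h0'
  rw [hi] at hpi
  rw [hj] at hpj
  rw [hi, hj]
  rcases o with _ | x <;> rcases o' with _ | y
  · exact joint_exp (zt k) (zt_pos hk).ne' s t fun h => hne (by rw [h])
  · exact joint_cross k hk y s t (hpj y rfl)
  · exact (joint_cross k hk x t s (hpi x rfl)).symm
  · by_cases hxy : x = y
    · subst hxy
      exact joint_exp (Rk k x) (h0' x rfl rfl) s t fun h => hne (by rw [h])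
    · exact joint_tails k hk x y s t (hpi x rfl) (hpj y rfl) hxy

end Pool.Agent.U456.IZ
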